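import Pool.Agent.H80.LN.C3

set_option autoImplicit false

open Topology Set
open scoped Pointwise commutatorElement

namespace Pool.Agent.H80.LN

section Hom

theorem exists_hom_of_finite_nilpotent (Q : Type*) [Group Q] [Finite Q] [Nontrivial Q]
    [Group.IsNilpotent Q] : ∃ ℓ : ℕ, ℓ.Prime ∧ ∃ f : Q →* Multiplicative (ZMod ℓ), ∃ q, f q ≠ 1 := by
  have hlt := Group.IsSolvable.commutator_lt_top_of_nontrivial Q
  have hnt : ∃ q : Q, q ∉ commutator Q := by
    by_contra h
    push Not at h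
    exact hlt.ne (eq_top_iff.mpr (fun q _ => h q))
  obtain ⟨q, hq⟩ := hnt
  obtain ⟨ι, _, n, hn, ⟨e⟩⟩ := CommGroup.equiv_prod_multiplicative_zmod_of_finite (Abelianization Q)
  have hι : Nonempty ι := by
    by_contra h
    rw [not_nonempty_iff] at h
    apply hq
    have h1 : (Abelianization.of q : Abelianization Q) = 1 := by
      apply e.injective
      exact Subsingleton.elim _ _
    exact (QuotientGroup.eq_one_iff q).mp h1
  obtain ⟨i⟩ := hι
  have hp : (n i).minFac.Prime := Nat.minFac_prime (hn i).ne'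
  refine ⟨(n i).minFac, hp, ?_⟩
  let g : Multiplicative (ZMod (n i)) →* Multiplicative (ZMod (n i).minFac) :=
    AddMonoidHom.toMultiplicative
      (ZMod.castHom (Nat.minFac_dvd (n i)) (ZMod (n i).minFac)).toAddMonoidHom
  let F : Q →* Multiplicative (ZMod (n i).minFac) :=
    g.comp ((Pi.evalMonoidHom (fun i => Multiplicative (ZMod (n i))) i).comp
      (e.toMonoidHom.comp Abelianization.of))
  refine ⟨F, ?_⟩
  have hsurj : Function.Surjective F := by
    intro z
    obtain ⟨y, hy⟩ := ZMod.castHom_surjective (Nat.minFac_dvd (n i)) z.toAdd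
    classical
    obtain ⟨a, ha⟩ := e.surjective (Function.update (1 : (i : ι) → Multiplicative (ZMod (n i))) i
      (Multiplicative.ofAdd y))
    obtain ⟨b, rfl⟩ := QuotientGroup.mk_surjective a
    refine ⟨b, ?_⟩
    have h1 : F b = g (e (Abelianization.of b) i) := rfl
    have h2 : e (Abelianization.of b) = Function.update (1 : (i : ι) → Multiplicative (ZMod (n i))) i
      (Multiplicative.ofAdd y) := ha
    rw [h1, h2, Function.update_self]
    have h3 : g (Multiplicative.ofAdd y) = Multiplicative.ofAdd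
      (ZMod.castHom (Nat.minFac_dvd (n i)) (ZMod (n i).minFac) y) := rfl
    rw [h3, hy]
    rfl
  obtain ⟨q', hq'⟩ := hsurj (Multiplicative.ofAdd 1)
  refine ⟨q', ?_⟩
  rw [hq']
  intro h
  have h2 : (1 : ZMod (n i).minFac) = 0 := h
  have : Fact (n i).minFac.Prime := ⟨hp⟩
  exact one_ne_zero h2

end Hom

variable {G : Type*} [Group G] [TopologicalSpace G] [IsTopologicalGroup G]

/-- Continuous homomorphisms from `R` to `ZMod ℓ`, extended by zero. -/
def VS (R : Subgroup G) (ℓ : ℕ) : Submodule (ZMod ℓ) (G → ZMod ℓ) where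
  carrier := {v | (∀ x, x ∉ R → v x = 0) ∧ (∀ x ∈ R, ∀ y ∈ R, v (x * y) = v x + v y) ∧
    ∃ U ∈ 𝓝 (1 : G), ∀ x ∈ U, x ∈ R → v x = 0}
  add_mem' := by
    rintro v w ⟨hv1, hv2, U, hU, hv3⟩ ⟨hw1, hw2, U', hU', hw3⟩
    refine ⟨fun x hx => ?_, fun x hx y hy => ?_, U ∩ U', Filter.inter_mem hU hU', ?_⟩
    · simp [hv1 x hx, hw1 x hx]
    · simp only [Pi.add_apply, hv2 x hx y hy, hw2 x hx y hy]
      ring
    · intro x hx hxR
      simp [hv3 x hx.1 hxR, hw3 x hx.2 hxR]
  zero_mem' := ⟨fun _ _ => rfl, fun _ _ _ _ => by simp, Set.univ, Filter.univ_mem,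
    fun _ _ _ => rfl⟩
  smul_mem' := by
    rintro a v ⟨hv1, hv2, U, hU, hv3⟩
    refine ⟨fun x hx => ?_, fun x hx y hy => ?_, U, hU, ?_⟩
    · simp [hv1 x hx]
    · simp only [Pi.smul_apply, hv2 x hx y hy, smul_add]
    · intro x hx hxR
      simp [hv3 x hx hxR]

variable {R : Subgroup G} {ℓ : ℕ}

theorem VS.support (v : VS R ℓ) {x : G} (hx : x ∉ R) : v.1 x = 0 := v.2.1 x hx

theorem VS.mul (v : VS R ℓ) {x y : G} (hx : x ∈ R) (hy : y ∈ R) : v.1 (x * y) = v.1 x + v.1 y :=
  v.2.2.1 x hx y hy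

theorem VS.one (v : VS R ℓ) : v.1 1 = 0 := by
  have := VS.mul v (one_mem R) (one_mem R)
  rw [mul_one] at this
  simpa using this

theorem VS.inv (v : VS R ℓ) {x : G} (hx : x ∈ R) : v.1 x⁻¹ = - v.1 x := by
  have := VS.mul v hx (inv_mem hx)
  rw [mul_inv_cancel, VS.one v] at this
  exact (neg_eq_of_add_eq_zero_right this.symm).symm

/-- The kernel, as a subgroup of `G`. -/
def VS.ker (v : VS R ℓ) : Subgroup G where
  carrier := {x | x ∈ R ∧ v.1 x = 0}
  mul_mem' := by
    rintro a b ⟨ha, ha'⟩ ⟨hb, hb'⟩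
    exact ⟨mul_mem ha hb, by rw [VS.mul v ha hb, ha', hb', add_zero]⟩
  one_mem' := ⟨one_mem _, VS.one v⟩
  inv_mem' := by
    rintro a ⟨ha, ha'⟩
    exact ⟨inv_mem ha, by rw [VS.inv v ha, ha', neg_zero]⟩

theorem VS.mem_ker {v : VS R ℓ} {x : G} : x ∈ VS.ker v ↔ x ∈ R ∧ v.1 x = 0 := Iff.rfl

theorem VS.isClosed_ker (v : VS R ℓ) (hR : IsClosed (R : Set G)) : IsClosed (VS.ker v : Set G) := by
  rw [← closure_subset_iff_isClosed]
  intro x hx
  have hxR : x ∈ R := by
    have : closure (VS.ker v : Set G) ⊆ (R : Set G) :=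
      closure_minimal (fun y hy => hy.1) hR
    exact this hx
  refine ⟨hxR, ?_⟩
  obtain ⟨U, hU, hUv⟩ := v.2.2.2
  have hnb : {y : G | x⁻¹ * y ∈ U} ∈ 𝓝 x := by
    have : Filter.Tendsto (fun y : G => x⁻¹ * y) (𝓝 x) (𝓝 1) := by
      have h := (continuous_const_mul x⁻¹).tendsto x
      simpa using h
    exact this hU
  obtain ⟨y, hy1, hy2⟩ := mem_closure_iff_nhds.mp hx _ hnb
  have h1 : v.1 (x⁻¹ * y) = 0 := hUv _ hy1 (mul_mem (inv_mem hxR) hy2.1)
  rw [VS.mul v (inv_mem hxR) hy2.1, VS.inv v hxR, hy2.2, add_zero, neg_eq_zero] at h1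
  exact h1

instance VS.act [hR : R.Normal] : DistribMulAction G (VS R ℓ) where
  smul g v := ⟨fun x => v.1 (g⁻¹ * x * g), by
    refine ⟨fun x hx => ?_, fun x hx y hy => ?_, ?_⟩
    · apply VS.support v
      intro h
      apply hx
      have := hR.conj_mem _ h g
      have h2 : g * (g⁻¹ * x * g) * g⁻¹ = x := by group
      rwa [h2] at this
    · have h1 : g⁻¹ * (x * y) * g = (g⁻¹ * x * g) * (g⁻¹ * y * g) := by group
      have h2 : ∀ z ∈ R, g⁻¹ * z * g ∈ R := by
        intro z hz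
        have := hR.conj_mem _ hz g⁻¹
        rwa [inv_inv] at this
      simp only
      rw [h1]
      exact VS.mul v (h2 x hx) (h2 y hy)
    · obtain ⟨U, hU, hUv⟩ := v.2.2.2
      refine ⟨(fun x => g⁻¹ * x * g) ⁻¹' U, ?_, ?_⟩
      · have : Filter.Tendsto (fun x : G => g⁻¹ * x * g) (𝓝 1) (𝓝 1) := by
          have h := (by fun_prop : Continuous (fun x : G => g⁻¹ * x * g)).tendsto 1
          simpa using h
        exact this hU
      · intro x hx hxR
        apply hUv _ hx
        have := hR.conj_mem _ hxR g⁻¹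
        rwa [inv_inv] at this⟩
  one_smul v := by
    apply Subtype.ext
    funext x
    change v.1 (1⁻¹ * x * 1) = v.1 x
    simp
  mul_smul g h v := by
    apply Subtype.ext
    funext x
    change v.1 ((g * h)⁻¹ * x * (g * h)) = v.1 (h⁻¹ * (g⁻¹ * x * g) * h)
    congr 1
    group
  smul_zero g := by
    apply Subtype.ext
    funext x
    rfl
  smul_add g v w := by
    apply Subtype.ext
    funext x
    rfl

theorem VS.smul_apply [R.Normal] (g : G) (v : VS R ℓ) (x : G) :
    (g • v).1 x = v.1 (g⁻¹ * x * g) := rfl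

instance VS.smulComm [R.Normal] : SMulCommClass G (ZMod ℓ) (VS R ℓ) where
  smul_comm g a v := by
    apply Subtype.ext
    funext x
    rfl

theorem VS.isOpen_stabilizer [hR : R.Normal] (hRc : IsCompact (R : Set G)) (v : VS R ℓ) :
    IsOpen (MulAction.stabilizer G v : Set G) := by
  obtain ⟨U, hU, hUv⟩ := v.2.2.2
  apply Subgroup.isOpen_of_mem_nhds (g := 1)
  have h1 : ∀ᶠ g in 𝓝 (1 : G), ∀ x ∈ (R : Set G), g⁻¹ * x * g * x⁻¹ ∈ U := by
    apply hRc.eventually_forall_of_forall_eventually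
    intro x _
    have h : Filter.Tendsto (fun z : G × G => z.1⁻¹ * z.2 * z.1 * z.2⁻¹) (𝓝 (1, x)) (𝓝 1) := by
      have h := (by fun_prop : Continuous (fun z : G × G => z.1⁻¹ * z.2 * z.1 * z.2⁻¹)).tendsto
        (1, x)
      simpa using h
    exact h hU
  filter_upwards [h1] with g hg
  rw [SetLike.mem_coe, MulAction.mem_stabilizer_iff]
  apply Subtype.ext
  funext x
  rw [VS.smul_apply]
  by_cases hx : x ∈ R
  · have hgx : g⁻¹ * x * g ∈ R := by
      have := hR.conj_mem _ hx g⁻¹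
      rwa [inv_inv] at this
    have h2 := hUv _ (hg x hx) (mul_mem hgx (inv_mem hx))
    rw [VS.mul v hgx (inv_mem hx), VS.inv v hx] at h2
    exact add_neg_eq_zero.mp h2
  · rw [VS.support v hx]
    apply VS.support v
    intro h
    apply hx
    have := hR.conj_mem _ h g
    have h2 : g * (g⁻¹ * x * g) * g⁻¹ = x := by group
    rwa [h2] at this

theorem VS.fixed [hR : R.Normal] (hRcl : IsClosed (R : Set G))
    (hRR : R ≤ (⁅R, (⊤ : Subgroup G)⁆).topologicalClosure) (v : VS R ℓ)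
    (hv : ∀ g : G, g • v = v) : v = 0 := by
  have h1 : ⁅R, (⊤ : Subgroup G)⁆ ≤ VS.ker v := by
    rw [Subgroup.commutator_le]
    intro x hx g _
    have h2 : g * x⁻¹ * g⁻¹ ∈ R := hR.conj_mem _ (inv_mem hx) g
    have h3 : ⁅x, g⁆ = x * (g * x⁻¹ * g⁻¹) := by
      simp [commutatorElement_def, mul_assoc]
    rw [VS.mem_ker, h3]
    refine ⟨mul_mem hx h2, ?_⟩
    rw [VS.mul v hx h2]
    have h4 : v.1 (g * x⁻¹ * g⁻¹) = v.1 x⁻¹ := by
      have := congrArg (fun w : VS R ℓ => w.1 x⁻¹) (hv g⁻¹)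
      simp only [VS.smul_apply, inv_inv] at this
      exact this
    rw [h4, VS.inv v hx, add_neg_cancel]
  have h2 := hRR.trans (Subgroup.topologicalClosure_minimal _ h1 (VS.isClosed_ker v hRcl))
  apply Subtype.ext
  funext x
  by_cases hx : x ∈ R
  · exact (h2 hx).2
  · exact VS.support v hx

/-- Step C4: existence of characters. -/
theorem Ctx.exists_char [T2Space G] (c : Ctx G) (W : Subgroup G) (hWo : IsOpen (W : Set G))
    (hWc : IsCompact (W : Set G)) :
    ∃ R : Subgroup G, R.Normal ∧ IsCompact (R : Set G) ∧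
      R ≤ (⁅R, (⊤ : Subgroup G)⁆).topologicalClosure ∧
      ∃ ℓ : ℕ, ℓ.Prime ∧ ∃ v : VS R ℓ, v ≠ 0 ∧ ∀ x ∈ W.normalCore, v.1 x = 0 := by
  classical
  obtain ⟨R, hRn, hRc, hRR, hRW⟩ := c.step2 W hWc
  refine ⟨R, hRn, hRc, hRR, ?_⟩
  have hcs : CompactSpace R := isCompact_iff_compactSpace.mp hRc
  have hopen : IsOpen ((W.subgroupOf R : Subgroup R) : Set R) :=
    hWo.preimage continuous_subtype_val
  have hfin : Finite (R ⧸ (W.subgroupOf R)) := Subgroup.quotient_finite_of_isOpen _ hopen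
  have hfi : (W.subgroupOf R).FiniteIndex := Subgroup.finiteIndex_of_finite_quotient
  set N := (W.subgroupOf R).normalCore with hN
  have hNcl : IsClosed (N : Set R) := isClosed_normalCore _ (Subgroup.isClosed_of_isOpen _ hopen)
  have hNo : IsOpen (N : Set R) := Subgroup.isOpen_of_isClosed_of_finiteIndex N hNcl
  have hnil : Group.IsNilpotent (R ⧸ N) := nilpotent_finite_quotient (nilp_subgroup c.nilp R)
      (QuotientGroup.mk' N) (QuotientGroup.mk'_surjective _)
  have hnt : Nontrivial (R ⧸ N) := by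
    rw [← not_subsingleton_iff_nontrivial]
    intro hs
    apply hRW
    intro x hx
    have : (⟨x, hx⟩ : R) ∈ N := by
      rw [← QuotientGroup.eq_one_iff]
      exact Subsingleton.elim _ _
    exact Subgroup.normalCore_le (W.subgroupOf R) this
  obtain ⟨ℓ, hℓ, f, q, hq⟩ := exists_hom_of_finite_nilpotent (R ⧸ N)
  let F : R →* Multiplicative (ZMod ℓ) := f.comp (QuotientGroup.mk' N)
  have hFN : ∀ x ∈ N, F x = 1 := by
    intro x hx
    have : (QuotientGroup.mk' N) x = 1 := (QuotientGroup.eq_one_iff x).mpr hx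
    simp only [F, MonoidHom.comp_apply, this, map_one]
  refine ⟨ℓ, hℓ, ⟨fun x => if h : x ∈ R then (F ⟨x, h⟩).toAdd else 0, ?_, ?_, ?_⟩, ?_, ?_⟩
  · intro x hx
    simp [hx]
  · intro x hx y hy
    simp only [dif_pos hx, dif_pos hy, dif_pos (mul_mem hx hy)]
    have : (⟨x * y, mul_mem hx hy⟩ : R) = ⟨x, hx⟩ * ⟨y, hy⟩ := rfl
    rw [this, map_mul, toAdd_mul]
  · have hNn : (N : Set R) ∈ 𝓝 (1 : R) := hNo.mem_nhds (one_mem _)
    rw [nhds_subtype_eq_comap, Filter.mem_comap] at hNn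
    obtain ⟨U, hU, hUN⟩ := hNn
    refine ⟨U, hU, ?_⟩
    intro x hx hxR
    simp only [dif_pos hxR]
    rw [hFN ⟨x, hxR⟩ (hUN hx)]
    rfl
  · intro h
    obtain ⟨r, rfl⟩ := QuotientGroup.mk'_surjective N q
    apply hq
    have h2 := congrArg (fun w : VS R ℓ => w.1 r.1) h
    simp only [dif_pos r.2] at h2
    exact h2
  · intro x hx
    simp only
    split_ifs with h
    · have : (⟨x, h⟩ : R) ∈ N := fun b => hx b
      rw [hFN _ this]
      rfl
    · rfl

end Pool.Agent.H80.LN
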