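import Pool.Agent.H80.LN.C5

set_option autoImplicit false

open Topology Set
open scoped Pointwise commutatorElement

namespace Pool.Agent.H80.LN

theorem gcd_arg {G : Type*} [Group G] (K D : Subgroup G) (hDn : D.Normal) (hDK : D ≤ K)
    (p j : ℕ) (hp : p.Prime) (g h : G) (hg : g ^ (p ^ (j + 1)) ∈ D)
    (hh : h⁻¹ * g ^ (p ^ j) * h ∉ K) (c : ℤ) (hc0 : c ≠ 0) (hc : |c| < (p ^ (j + 1) : ℕ)) :
    h⁻¹ * g ^ c * h ∉ K := by
  intro hcK
  set γ := h⁻¹ * g * h with hγ
  have hconj : ∀ c : ℤ, h⁻¹ * g ^ c * h = γ ^ c := by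
    intro c
    have := conj_zpow (a := h⁻¹) (b := g) (i := c)
    rw [inv_inv] at this
    exact this.symm
  rw [hconj] at hcK
  have hqK : γ ^ ((p ^ (j + 1) : ℕ) : ℤ) ∈ K := by
    rw [← hconj, zpow_natCast]
    apply hDK
    have := hDn.conj_mem _ hg h⁻¹
    rwa [inv_inv] at this
  have hgcd : γ ^ ((Int.gcd c ((p ^ (j + 1) : ℕ) : ℤ) : ℕ) : ℤ) ∈ K := by
    rw [Int.gcd_eq_gcd_ab, zpow_add, zpow_mul, zpow_mul]
    exact mul_mem (zpow_mem hcK _) (zpow_mem hqK _)
  have hdvd : Int.gcd c ((p ^ (j + 1) : ℕ) : ℤ) ∣ p ^ (j + 1) := by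
    have := Int.gcd_dvd_right c ((p ^ (j + 1) : ℕ) : ℤ)
    exact_mod_cast this
  obtain ⟨i, hi, hi2⟩ := (Nat.dvd_prime_pow hp).mp hdvd
  have hle : p ^ i ≤ c.natAbs := by
    rw [← hi2]
    apply Nat.le_of_dvd (Int.natAbs_pos.mpr hc0)
    exact Int.gcd_dvd_natAbs_left _ _
  have hij : i ≤ j := by
    by_contra hij
    push Not at hij
    have h1 : i = j + 1 := by omega
    rw [h1] at hle
    have h2 : (c.natAbs : ℤ) < (p ^ (j + 1) : ℕ) := by
      rw [Int.natCast_natAbs]; exact hc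
    have h3 : c.natAbs < p ^ (j + 1) := by exact_mod_cast h2
    omega
  apply hh
  have h4 : h⁻¹ * g ^ (p ^ j) * h = γ ^ ((p ^ j : ℕ) : ℤ) := by
    rw [← hconj, zpow_natCast]
  rw [h4]
  rw [hi2] at hgcd
  have h5 : ((p ^ j : ℕ) : ℤ) = ((p ^ i : ℕ) : ℤ) * ((p ^ (j - i) : ℕ) : ℤ) := by
    rw [← Nat.cast_mul, ← pow_add]
    congr 2
    omega
  rw [h5, zpow_mul]
  exact zpow_mem hgcd _

variable {G : Type*} [Group G] [TopologicalSpace G] [IsTopologicalGroup G]
variable {R : Subgroup G} {ℓ : ℕ}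

theorem VS.finite_vanish (hℓ : ℓ.Prime) (hRc : IsCompact (R : Set G)) (U : Set G)
    (hU : U ∈ 𝓝 (1 : G)) : {w : VS R ℓ | ∀ x ∈ U, x ∈ R → w.1 x = 0}.Finite := by
  classical
  have hfact : Fact ℓ.Prime := ⟨hℓ⟩
  set A := Subgroup.closure (U ∩ (R : Set G)) with hA
  have hAR : A ≤ R := by
    rw [hA, Subgroup.closure_le]; exact Set.inter_subset_right
  have hfin := finite_image_of_open R A hRc U hU
    (fun x hx hxR => Subgroup.subset_closure ⟨hx, hxR⟩)
  set F := ((fun x : G => (x : G ⧸ A)) '' (R : Set G)) with hF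
  have : Finite F := hfin
  let Φ : {w : VS R ℓ | ∀ x ∈ U, x ∈ R → w.1 x = 0} → (F → ZMod ℓ) :=
    fun w f => w.1.1 (f.1.out)
  have hinj : Function.Injective Φ := by
    rintro ⟨w, hw⟩ ⟨w', hw'⟩ h
    apply Subtype.ext
    apply Subtype.ext
    funext x
    simp only
    by_cases hx : x ∈ R
    · have hAw : ∀ w : VS R ℓ, (∀ x ∈ U, x ∈ R → w.1 x = 0) → A ≤ VS.ker w := by
        intro w hw
        rw [hA, Subgroup.closure_le]
        rintro y ⟨hy1, hy2⟩
        exact ⟨hy2, hw y hy1 hy2⟩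
      have h1 := QuotientGroup.out_eq' (x : G ⧸ A)
      have h2 : ((x : G ⧸ A).out)⁻¹ * x ∈ A := QuotientGroup.eq.mp h1
      have h3 : (x : G ⧸ A).out ∈ R := by
        have := mul_mem hx (inv_mem (hAR h2))
        have h4 : x * (((x : G ⧸ A).out)⁻¹ * x)⁻¹ = (x : G ⧸ A).out := by group
        rwa [h4] at this
      have h5 : ∀ w : VS R ℓ, (∀ x ∈ U, x ∈ R → w.1 x = 0) → w.1 x = w.1 ((x : G ⧸ A).out) := by
        intro w hw
        have h6 : x = (x : G ⧸ A).out * (((x : G ⧸ A).out)⁻¹ * x) := by group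
        conv_lhs => rw [h6]
        rw [VS.mul w h3 (hAR h2), (hAw w hw h2).2, add_zero]
      rw [h5 w hw, h5 w' hw']
      exact congrFun h ⟨(x : G ⧸ A), ⟨x, hx, rfl⟩⟩
    · rw [VS.support _ hx, VS.support _ hx]
  have := Finite.of_injective Φ hinj
  exact Set.toFinite _

theorem VS.sum_pow [hR : R.Normal] (g c : G) (hc : c ∈ R) : ∀ n : ℕ,
    (g⁻¹ ^ n * (g * c) ^ n ∈ R) ∧
    ∀ v : VS R ℓ, v.1 (g⁻¹ ^ n * (g * c) ^ n) = ∑ a ∈ Finset.range n, (g ^ a • v).1 c := by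
  intro n
  induction n with
  | zero =>
    refine ⟨by simp, ?_⟩
    intro v
    simp [VS.one]
  | succ n ih =>
    have h1 : g⁻¹ ^ (n + 1) * (g * c) ^ (n + 1) = (g⁻¹ * (g⁻¹ ^ n * (g * c) ^ n) * g) * c := by
      rw [pow_succ' g⁻¹ n, pow_succ (g * c) n]
      group
    have h2 : g⁻¹ * (g⁻¹ ^ n * (g * c) ^ n) * g ∈ R := by
      have := hR.conj_mem _ ih.1 g⁻¹
      rwa [inv_inv] at this
    refine ⟨by rw [h1]; exact mul_mem h2 hc, ?_⟩
    intro v
    rw [h1, VS.mul v h2 hc, Finset.sum_range_succ', pow_zero, one_smul]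
    congr 1
    have h3 := ih.2 (g • v)
    rw [VS.smul_apply] at h3
    rw [h3]
    apply Finset.sum_congr rfl
    intro a _
    rw [pow_succ, mul_smul]

/-- Step C6: the contradiction. -/
theorem Ctx.false [T2Space G] [LocallyCompactSpace G] (c : Ctx G) : False := by
  classical
  obtain ⟨K, hKm, hKo, hKc, hKe⟩ := c.exh
  obtain ⟨p, hp, j, D, hDn, hDc, O, hOo, hO, g0, hg0, hz⟩ := c.minexp
  set q := p ^ (j + 1) with hq
  set z := g0 ^ (p ^ j) with hzdef
  obtain ⟨m0, hm0⟩ := hKe _ hDc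
  obtain ⟨R, hRn, hRc, hRR, ℓ, hℓ, v0, hv0, hv0W⟩ := c.exists_char (K m0) (hKo m0) (hKc m0)
  have hv0D : ∀ x ∈ D, v0.1 x = 0 :=
    fun x hx => hv0W x (Subgroup.normal_le_normalCore.mpr hm0 hx)
  -- the finite set
  have hVfin : {w : VS R ℓ | ∀ x ∈ {x : G | g0 * x ∈ O}, x ∈ R → w.1 x = 0}.Finite := by
    apply VS.finite_vanish hℓ hRc
    apply (hOo.preimage (continuous_const_mul g0)).mem_nhds
    simpa using hg0
  have hsum : ∀ v : VS R ℓ, (∀ x ∈ D, v.1 x = 0) →
      (∑ a ∈ Finset.range q, g0 ^ a • v) ∈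
        {w : VS R ℓ | ∀ x ∈ {x : G | g0 * x ∈ O}, x ∈ R → w.1 x = 0} := by
    intro v hv x hx hxR
    have h1 : (∑ a ∈ Finset.range q, g0 ^ a • v).1 x = ∑ a ∈ Finset.range q, (g0 ^ a • v).1 x := by
      have : (∑ a ∈ Finset.range q, g0 ^ a • v).1 = ∑ a ∈ Finset.range q, (g0 ^ a • v).1 := by
        exact Submodule.coe_sum _ _ _
      rw [this, Finset.sum_apply]
    rw [h1, ← (VS.sum_pow (ℓ := ℓ) g0 x hxR q).2 v]
    apply hv
    rw [inv_pow]
    exact mul_mem (inv_mem (hO g0 hg0)) (hO _ hx)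
  -- the mixing compact set
  obtain ⟨C, hCc, hC⟩ := c.mix (V := VS R ℓ) (VS.isOpen_stabilizer hRc)
    (fun v hv => VS.fixed hRc.isClosed hRR v hv) (ι := ℕ × Bool) (2 * q) {v0, -v0}
    (Set.toFinite _)
  obtain ⟨m, hm⟩ := hKe (C ∪ D) (hCc.union hDc)
  set K' := K m with hK'
  have hK'c : IsCompact (K' : Set G) := hKc m
  -- unbounded conjugates
  have hunb : ∀ Q : Set G, IsCompact Q → ∃ y, y ∉ Q ∧ y⁻¹ * z * y ∉ K' := by
    intro Q hQ
    by_contra hcon
    push Not at hcon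
    obtain ⟨n, hn⟩ := hKe ((K' : Set G) ∪ (fun y => y⁻¹ * z * y) '' Q)
      (hK'c.union (hQ.image (by fun_prop)))
    apply hz (K n).normalCore inferInstance
    · exact (hKc n).of_isClosed_subset (isClosed_normalCore _ (hKc n).isClosed)
        (Subgroup.normalCore_le _)
    · intro b
      by_cases hb : b⁻¹ ∈ Q
      · apply hn
        right
        exact ⟨b⁻¹, hb, by simp only [inv_inv]⟩
      · apply hn
        left
        have := hcon b⁻¹ hb
        rwa [inv_inv] at this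
  obtain ⟨h, hh1, hh2⟩ := exists_seq_of_forall_finset_exists (fun y : G => y⁻¹ * z * y ∉ K')
    (fun x y : G => ∀ c ∈ Finset.Icc (-(q : ℤ)) q, x⁻¹ * g0 ^ c * y ∉ K') (by
      intro s _
      have hQ : IsCompact (⋃ x ∈ s, ⋃ c ∈ Finset.Icc (-(q : ℤ)) q,
          (fun k => (x⁻¹ * g0 ^ c)⁻¹ * k) '' (K' : Set G)) := by
        apply s.isCompact_biUnion
        intro x _
        apply (Finset.Icc (-(q : ℤ)) q).isCompact_biUnion
        intro c _
        exact hK'c.image (continuous_const_mul _)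
      obtain ⟨y, hy1, hy2⟩ := hunb _ hQ
      refine ⟨y, hy2, ?_⟩
      intro x hx c hc hmem
      apply hy1
      refine Set.mem_biUnion hx (Set.mem_biUnion hc ⟨_, hmem, ?_⟩)
      group)
  have hh3 : ∀ i k, i ≠ k → ∀ c ∈ Finset.Icc (-(q : ℤ)) q, (h i)⁻¹ * g0 ^ c * h k ∉ K' := by
    intro i k hik c hc
    rcases lt_or_gt_of_ne hik with hlt | hlt
    · exact hh2 i k hlt c hc
    · intro hmem
      apply hh2 k i hlt (-c) (by
        rw [Finset.mem_Icc] at hc ⊢
        omega)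
      have := inv_mem hmem
      have h4 : ((h i)⁻¹ * g0 ^ c * h k)⁻¹ = (h k)⁻¹ * g0 ^ (-c) * h i := by
        rw [zpow_neg]; group
      rwa [h4] at this
  -- pigeonhole
  have hhv : ∀ n, ∀ x ∈ D, (h n • v0).1 x = 0 := by
    intro n x hx
    rw [VS.smul_apply]
    apply hv0D
    have := hDn.conj_mem _ hx (h n)⁻¹
    rwa [inv_inv] at this
  have := hVfin.to_subtype
  obtain ⟨i, k, hik, heq⟩ := Finite.exists_ne_map_eq_of_infinite
    (fun n : ℕ => (⟨∑ a ∈ Finset.range q, g0 ^ a • (h n • v0), hsum _ (hhv n)⟩ :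
      {w : VS R ℓ | ∀ x ∈ {x : G | g0 * x ∈ O}, x ∈ R → w.1 x = 0}))
  have heq' : ∑ a ∈ Finset.range q, g0 ^ a • (h i • v0) =
      ∑ a ∈ Finset.range q, g0 ^ a • (h k • v0) := congrArg Subtype.val heq
  have hqpos : 0 < q := pow_pos hp.pos _
  apply hv0
  have hfin := hC (Finset.range q ×ˢ (Finset.univ : Finset Bool))
    (fun ab => g0 ^ ab.1 * (if ab.2 then h i else h k))
    (fun ab => if ab.2 then v0 else -v0)
    (by simp; omega)
    (by
      rintro ⟨a, b⟩ hab ⟨a', b'⟩ hab' hne hmem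
      simp only [Finset.mem_product, Finset.mem_range, Finset.mem_univ, and_true] at hab hab'
      have hmem' := hm (Or.inl hmem)
      simp only at hmem'
      have h5 : ∀ x y : G, (g0 ^ a * x)⁻¹ * (g0 ^ a' * y) = x⁻¹ * g0 ^ ((a' : ℤ) - a) * y := by
        intro x y
        rw [mul_inv_rev, zpow_sub, zpow_natCast, zpow_natCast]
        have : g0 ^ a' * (g0 ^ a)⁻¹ = (g0 ^ a)⁻¹ * g0 ^ a' := by
          rw [← zpow_natCast, ← zpow_natCast, ← zpow_neg, ← zpow_add, ← zpow_add, add_comm]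
        rw [this]
        group
      rw [h5] at hmem'
      have hIcc : ((a' : ℤ) - a) ∈ Finset.Icc (-(q : ℤ)) q := by
        rw [Finset.mem_Icc]; omega
      by_cases hbb : b = b'
      · subst hbb
        have haa : a ≠ a' := by
          rintro rfl
          exact hne rfl
        have hc0 : (a' : ℤ) - a ≠ 0 := by omega
        have hclt : |(a' : ℤ) - a| < (p ^ (j + 1) : ℕ) := by
          rw [← hq, abs_lt]; omega
        refine gcd_arg K' D hDn (fun x hx => hm (Or.inr hx)) p j hp g0 _ (hO g0 hg0) ?_ _ hc0 hclt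
          hmem'
        cases b
        · exact hh1 k
        · exact hh1 i
      · cases b <;> cases b'
        · exact hbb rfl
        · exact hh3 k i hik.symm _ hIcc hmem'
        · exact hh3 i k hik _ hIcc hmem'
        · exact hbb rfl)
    (by
      rintro ⟨a, b⟩ _
      cases b <;> simp)
    (by
      rw [Finset.sum_product]
      simp only [Fintype.sum_bool, if_true, Bool.false_eq_true, if_false, smul_neg, mul_smul]
      rw [Finset.sum_add_distrib, Finset.sum_neg_distrib, heq', add_neg_cancel])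
  have h6 := hfin (0, true) (by simp [hqpos])
  simpa using h6

end Pool.Agent.H80.LN
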