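import Mathlib

set_option autoImplicit false

open Topology Set
open scoped Pointwise commutatorElement

namespace Pool.Agent.H80.LN

variable {G : Type*} [Group G] [TopologicalSpace G] [IsTopologicalGroup G]

/-- Recurrence of powers in a nondiscrete Hausdorff monothetic group. -/
theorem recur [T2Space G] (x : G) (hd : Dense ((Subgroup.zpowers x : Subgroup G) : Set G))
    (hnd : ¬ DiscreteTopology G) {U : Set G} (hU : U ∈ 𝓝 (1 : G)) (N : ℕ) :
    ∃ n : ℕ, N ≤ n ∧ x ^ n ∈ U := by
  by_contra hcon
  push Not at hcon
  apply hnd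
  apply discreteTopology_of_isOpen_singleton_one
  set U' : Set G := interior (U ∩ U⁻¹) with hU'
  have hU'n : U' ∈ 𝓝 (1 : G) := by
    rw [hU']
    apply interior_mem_nhds.mpr
    exact Filter.inter_mem hU (inv_mem_nhds_one G hU)
  have hfin : (U' ∩ (Subgroup.zpowers x : Set G)).Finite := by
    apply Set.Finite.subset ((Finset.Icc (-(N : ℤ)) N).finite_toSet.image (fun m : ℤ => x ^ m))
    rintro y ⟨hy1, hy2⟩
    obtain ⟨m, rfl⟩ := Subgroup.mem_zpowers_iff.mp hy2
    have hy1' := interior_subset hy1
    refine ⟨m, ?_, rfl⟩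
    simp only [Finset.coe_Icc, Set.mem_Icc]
    constructor
    · by_contra hm
      push Not at hm
      have h1 : x ^ (-m) ∈ U := by
        have := hy1'.2
        rw [Set.mem_inv, ← zpow_neg] at this
        exact this
      have h2 : x ^ ((-m).toNat) ∈ U := by
        rw [← zpow_natCast, Int.toNat_of_nonneg (by omega)]
        exact h1
      exact hcon _ (by omega) h2
    · by_contra hm
      push Not at hm
      have h1 : x ^ m ∈ U := hy1'.1
      have h2 : x ^ (m.toNat) ∈ U := by
        rw [← zpow_natCast, Int.toNat_of_nonneg (by omega)]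
        exact h1
      exact hcon _ (by omega) h2
  have hsub : U' ⊆ closure (U' ∩ (Subgroup.zpowers x : Set G)) :=
    hd.open_subset_closure_inter isOpen_interior
  rw [hfin.isClosed.closure_eq] at hsub
  exact isOpen_singleton_of_finite_mem_nhds 1 hU'n (hfin.subset hsub)

theorem isCompact_univ_of_dense [T2Space G] [LocallyCompactSpace G] (x : G)
    (hd : Dense ((Subgroup.zpowers x : Subgroup G) : Set G))
    (hnd : ¬ DiscreteTopology G) : IsCompact (Set.univ : Set G) := by
  obtain ⟨U, hUc, hU⟩ := exists_compact_mem_nhds (1 : G)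
  have hcov : U ⊆ ⋃ n : ℕ, {g : G | x ^ (n + 1) * g ∈ interior U} := by
    intro g _
    obtain ⟨y, hy1, hy2⟩ := hd.inter_open_nonempty ((fun z => z * g) ⁻¹' interior U)
      (isOpen_interior.preimage (continuous_id.mul continuous_const))
      ⟨g⁻¹, by simpa using mem_interior_iff_mem_nhds.mpr hU⟩
    obtain ⟨m, rfl⟩ := Subgroup.mem_zpowers_iff.mp hy2
    have hnb : {h : G | h * (x ^ m * g) ∈ interior U} ∈ 𝓝 (1 : G) := by
      apply IsOpen.mem_nhds
      · exact isOpen_interior.preimage (continuous_id.mul continuous_const)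
      · simpa using hy1
    obtain ⟨n, hn1, hn2⟩ := recur x hd hnd hnb (m.natAbs + 1)
    refine Set.mem_iUnion.mpr ⟨(n + m - 1).toNat, ?_⟩
    have hpos : 0 ≤ (n : ℤ) + m - 1 := by omega
    simp only [Set.mem_ofPred_eq] at hn2 ⊢
    have : x ^ (((n + m - 1 : ℤ).toNat) + 1) * g = x ^ n * (x ^ m * g) := by
      rw [← mul_assoc, ← zpow_natCast, ← zpow_natCast, ← zpow_add]
      congr 2
      push_cast
      rw [Int.toNat_of_nonneg hpos]
      ring
    rw [this]
    exact hn2
  obtain ⟨t, ht⟩ := hUc.elim_finite_subcover _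
    (fun n => isOpen_interior.preimage (continuous_const.mul continuous_id)) hcov
  set N := t.sup id + 1 with hN
  have key : ∀ g ∈ U, ∃ n : ℕ, 1 ≤ n ∧ n ≤ N ∧ x ^ n * g ∈ U := by
    intro g hg
    have := ht hg
    simp only [Set.mem_iUnion] at this
    obtain ⟨n, hn, hn2⟩ := this
    refine ⟨n + 1, by omega, ?_, interior_subset hn2⟩
    have : n ≤ t.sup id := Finset.le_sup (f := id) hn
    omega
  set P : Set G := ⋃ k ∈ Finset.range (N + 1), (fun g => x ^ k * g) '' U with hP
  have hPc : IsCompact P := by
    apply (Finset.range (N + 1)).isCompact_biUnion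
    intro k _
    exact hUc.image (continuous_const.mul continuous_id)
  have hzP : ((Subgroup.zpowers x : Subgroup G) : Set G) ⊆ P := by
    intro y hy
    obtain ⟨m, rfl⟩ := Subgroup.mem_zpowers_iff.mp hy
    obtain ⟨n0, hn0, hn0U⟩ := recur x hd hnd (inv_mem_nhds_one G hU) (m.natAbs)
    obtain ⟨n, ⟨hn1, hn2⟩, hn3⟩ := Int.exists_greatest_of_bdd
      (P := fun n : ℤ => n ≤ m ∧ x ^ n ∈ U) ⟨m, fun z hz => hz.1⟩
      ⟨-(n0 : ℤ), by omega, by simpa using hn0U⟩
    obtain ⟨j, hj1, hj2, hj3⟩ := key _ hn2
    have hlt : m < j + n := by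
      by_contra hh
      push Not at hh
      have := hn3 (j + n) ⟨hh, by rw [zpow_add, zpow_natCast]; exact hj3⟩
      omega
    rw [hP]
    simp only [Set.mem_iUnion]
    refine ⟨(m - n).toNat, ?_, x ^ n, hn2, ?_⟩
    · rw [Finset.mem_range]; omega
    · simp only
      rw [← zpow_natCast, ← zpow_add, Int.toNat_of_nonneg (by omega)]
      congr 1
      ring
  have : (Set.univ : Set G) ⊆ P := by
    rw [← hd.closure_eq]
    exact closure_minimal hzP hPc.isClosed
  rw [Set.univ_subset_iff] at this
  rw [← this]
  exact hPc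

omit [IsTopologicalGroup G] in
theorem isOfFinOrder_of_discrete [DiscreteTopology G]
    (hC : ∀ H : Subgroup G, IsClosed (H : Set G) → H ≠ ⊤ → IsCompact (H : Set G)) (x : G) :
    IsOfFinOrder x := by
  by_cases h : Subgroup.zpowers (x ^ 2) = ⊤
  · have hx : x ∈ Subgroup.zpowers (x ^ 2) := by rw [h]; trivial
    obtain ⟨k, hk⟩ := Subgroup.mem_zpowers_iff.mp hx
    rw [isOfFinOrder_iff_zpow_eq_one]
    refine ⟨2 * k - 1, by omega, ?_⟩
    rw [zpow_sub, zpow_mul, zpow_one]
    have : (x ^ (2 : ℤ)) ^ k = x := by exact_mod_cast hk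
    rw [this]
    simp
  · have hc := hC (Subgroup.zpowers (x ^ 2)) (isClosed_discrete _) h
    have hf : ((Subgroup.zpowers (x ^ 2) : Subgroup G) : Set G).Finite := isCompact_iff_finite.mp hc
    have h2 : IsOfFinOrder (x ^ 2) := by
      rw [← finite_zpowers]
      exact hf
    exact (isOfFinOrder_pow.mp h2).resolve_right (by norm_num)

theorem isCompact_closure_zpowers [T2Space G] [LocallyCompactSpace G]
    (hC : ∀ H : Subgroup G, IsClosed (H : Set G) → H ≠ ⊤ → IsCompact (H : Set G)) (x : G) :
    IsCompact (((Subgroup.zpowers x).topologicalClosure : Subgroup G) : Set G) := by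
  by_cases h : (Subgroup.zpowers x).topologicalClosure = ⊤
  · by_cases hdisc : DiscreteTopology G
    · have := isOfFinOrder_of_discrete hC x
      have hf : ((Subgroup.zpowers x : Subgroup G) : Set G).Finite := finite_zpowers.mpr this
      rw [Subgroup.topologicalClosure_coe, hf.isClosed.closure_eq]
      exact hf.isCompact
    · have hd : Dense ((Subgroup.zpowers x : Subgroup G) : Set G) := by
        rw [dense_iff_closure_eq, ← Subgroup.topologicalClosure_coe, h]; rfl
      have := isCompact_univ_of_dense x hd hdisc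
      rw [h]
      exact this
  · exact hC _ (Subgroup.isClosed_topologicalClosure _) h

/-- commutators pass to closures -/
theorem commutator_topologicalClosure_le {H₁ H₂ S : Subgroup G} (hS : IsClosed (S : Set G))
    (h : ⁅H₁, H₂⁆ ≤ S) : ⁅H₁.topologicalClosure, H₂.topologicalClosure⁆ ≤ S := by
  rw [Subgroup.commutator_le] at h ⊢
  intro a ha b hb
  have h2 := map_mem_closure₂ (f := fun a b : G => ⁅a, b⁆)
    (s := (H₁ : Set G)) (t := (H₂ : Set G)) (u := (S : Set G)) (x := a) (y := b)
    (by
      simp only [commutatorElement_def]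
      fun_prop) ha hb (fun a ha b hb => h a ha b hb)
  rwa [hS.closure_eq] at h2

theorem isCompact_univ_of_perfect_of_nilpotent [T2Space G] (H : Subgroup G)
    (hd : H.topologicalClosure = ⊤) (hn : Group.IsNilpotent H)
    (hp : (commutator G).topologicalClosure = ⊤) : IsCompact (Set.univ : Set G) := by
  have key : ∀ n : ℕ, ((derivedSeries H n).map H.subtype).topologicalClosure = ⊤ := by
    intro n
    induction n with
    | zero =>
      rw [derivedSeries_zero]
      rw [← MonoidHom.range_eq_map, Subgroup.range_subtype]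
      exact hd
    | succ n ih =>
      rw [derivedSeries_succ, Subgroup.map_commutator, eq_top_iff, ← hp]
      apply Subgroup.topologicalClosure_minimal
      · have := commutator_topologicalClosure_le (G := G)
          (H₁ := (derivedSeries H n).map H.subtype) (H₂ := (derivedSeries H n).map H.subtype)
          (S := (⁅(derivedSeries H n).map H.subtype, (derivedSeries H n).map H.subtype⁆).topologicalClosure)
          (Subgroup.isClosed_topologicalClosure _) (Subgroup.le_topologicalClosure _)
        rw [ih] at this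
        exact this
      · exact Subgroup.isClosed_topologicalClosure _
  have : Group.IsSolvable H := inferInstance
  obtain ⟨n, hn⟩ := Group.IsSolvable.solvable (G := H)
  have h1 := key n
  rw [hn, Subgroup.map_bot] at h1
  have h2 : ((⊥ : Subgroup G).topologicalClosure : Set G) = {1} := by
    rw [Subgroup.topologicalClosure_coe, Subgroup.coe_bot, closure_singleton]
  have h3 : (Set.univ : Set G) = {1} := by
    rw [← h2, h1]; rfl
  rw [h3]
  exact isCompact_singleton

theorem isCompact_closure_of_finset [T2Space G] [LocallyCompactSpace G]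
    (hN : ∀ s : Finset G, Group.IsNilpotent (Subgroup.closure (s : Set G)))
    (hC : ∀ H : Subgroup G, IsClosed (H : Set G) → H ≠ ⊤ → IsCompact (H : Set G))
    (F : Finset G) :
    IsCompact (((Subgroup.closure (F : Set G)).topologicalClosure : Subgroup G) : Set G) := by
  by_cases h : (Subgroup.closure (F : Set G)).topologicalClosure = ⊤
  · by_cases hp : (commutator G).topologicalClosure = ⊤
    · rw [h]
      exact isCompact_univ_of_perfect_of_nilpotent _ h (hN F) hp
    · have hM := hC _ (Subgroup.isClosed_topologicalClosure _) hp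
      have key : ∀ F : Finset G, ∃ P : Subgroup G, IsCompact (P : Set G) ∧
          (commutator G).topologicalClosure ≤ P ∧ ∀ f ∈ F, f ∈ P := by
        classical
        intro F
        induction F using Finset.induction_on with
        | empty => exact ⟨_, hM, le_rfl, by simp⟩
        | insert a s _ ih =>
          obtain ⟨P, hP1, hP2, hP3⟩ := ih
          have : P.Normal := Subgroup.Normal.of_commutator_le _
            ((Subgroup.le_topologicalClosure _).trans hP2)
          refine ⟨(Subgroup.zpowers a).topologicalClosure ⊔ P, ?_, hP2.trans le_sup_right, ?_⟩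
          · rw [Subgroup.mul_normal]
            exact (isCompact_closure_zpowers hC a).mul hP1
          · intro f hf
            rw [Finset.mem_insert] at hf
            rcases hf with rfl | hf
            · exact Subgroup.mem_sup_left
                (Subgroup.le_topologicalClosure _ (Subgroup.mem_zpowers f))
            · exact Subgroup.mem_sup_right (hP3 f hf)
      obtain ⟨P, hP1, hP2, hP3⟩ := key F
      apply hP1.of_isClosed_subset (Subgroup.isClosed_topologicalClosure _)
      apply Subgroup.topologicalClosure_minimal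
      · rw [Subgroup.closure_le]
        exact hP3
      · exact hP1.isClosed
  · exact hC _ (Subgroup.isClosed_topologicalClosure _) h

/-- every compact set lies in a compact open subgroup -/
theorem exists_compact_open [T2Space G] [LocallyCompactSpace G]
    (hN : ∀ s : Finset G, Group.IsNilpotent (Subgroup.closure (s : Set G)))
    (hC : ∀ H : Subgroup G, IsClosed (H : Set G) → H ≠ ⊤ → IsCompact (H : Set G))
    (Q : Set G) (hQ : IsCompact Q) :
    ∃ L : Subgroup G, IsOpen (L : Set G) ∧ IsCompact (L : Set G) ∧ Q ⊆ L := by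
  classical
  obtain ⟨K0, hK0c, hK0⟩ := exists_compact_superset (hQ.union (isCompact_singleton (x := (1 : G))))
  set K := K0 ∪ K0⁻¹ with hK
  have hKc : IsCompact K := hK0c.union hK0c.inv
  have hKinv : K⁻¹ = K := by
    rw [hK, Set.union_inv, inv_inv, Set.union_comm]
  have h1K : K ∈ 𝓝 (1 : G) := by
    apply Filter.mem_of_superset (mem_interior_iff_mem_nhds.mp (hK0 (Or.inr rfl)))
    exact Set.subset_union_left
  have hQK : Q ⊆ K := fun q hq => Or.inl (interior_subset (hK0 (Or.inl hq)))
  set L := Subgroup.closure K with hL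
  have hLo : IsOpen (L : Set G) :=
    Subgroup.isOpen_of_mem_nhds L (g := 1) (Filter.mem_of_superset h1K Subgroup.subset_closure)
  have hKKc : IsCompact (K * K) := hKc.mul hKc
  obtain ⟨t, ht1, ht2⟩ := hKKc.elim_nhds_subcover (fun x => (fun y => x⁻¹ * y) ⁻¹' K)
    (by
      intro x hx
      have : Filter.Tendsto (fun y : G => x⁻¹ * y) (𝓝 x) (𝓝 1) := by
        have h := (continuous_const_mul x⁻¹).tendsto x
        simpa using h
      exact this h1K)
  have hKL : K ⊆ L := Subgroup.subset_closure
  set S : Set G := ((Subgroup.closure (t : Set G) : Subgroup G) : Set G) * K with hS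
  have hS1 : (1 : G) ∈ S := ⟨1, one_mem _, 1, mem_of_mem_nhds h1K, by simp⟩
  have hSK : ∀ s ∈ S, ∀ k ∈ K, s * k ∈ S := by
    rintro _ ⟨c, hc, k1, hk1, rfl⟩ k hk
    have := ht2 (Set.mul_mem_mul hk1 hk)
    simp only [Set.mem_iUnion] at this
    obtain ⟨x, hx, hxk⟩ := this
    refine ⟨c * x, mul_mem hc (Subgroup.subset_closure hx), x⁻¹ * (k1 * k), hxk, ?_⟩
    simp only
    group
  have hLS : (L : Set G) ⊆ S := by
    have : ∀ x ∈ L, ∀ s ∈ S, s * x ∈ S := by
      intro x hx
      have hx' : x ∈ Submonoid.closure K := by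
        have h2 := Subgroup.closure_toSubmonoid K
        rw [hKinv, Set.union_self] at h2
        rw [← h2]
        exact hx
      clear hx
      induction hx' using Submonoid.closure_induction with
      | mem x hx => intro s hs; exact hSK s hs x hx
      | one => intro s hs; simpa using hs
      | mul x y hx hy ihx ihy =>
        intro s hs
        rw [← mul_assoc]
        exact ihy _ (ihx s hs)
    intro x hx
    have := this x hx 1 hS1
    simpa using this
  refine ⟨L, hLo, ?_, hQK.trans hKL⟩
  apply IsCompact.of_isClosed_subset ((isCompact_closure_of_finset hN hC t).mul hKc)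
    (Subgroup.isClosed_of_isOpen L hLo)
  exact hLS.trans (Set.mul_subset_mul_right (Subgroup.le_topologicalClosure _))

theorem exists_exhaustion [T2Space G] [LocallyCompactSpace G]
    (hN : ∀ s : Finset G, Group.IsNilpotent (Subgroup.closure (s : Set G)))
    (hC : ∀ H : Subgroup G, IsClosed (H : Set G) → H ≠ ⊤ → IsCompact (H : Set G))
    (hnc : ¬ CompactSpace G) :
    ∃ K : ℕ → Subgroup G, Monotone K ∧ (∀ n, IsOpen (K n : Set G)) ∧
      (∀ n, IsCompact (K n : Set G)) ∧ ∀ Q : Set G, IsCompact Q → ∃ n, Q ⊆ K n := by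
  have hstep : ∀ L : {L : Subgroup G // IsOpen (L : Set G) ∧ IsCompact (L : Set G)},
      ∃ L' : {L : Subgroup G // IsOpen (L : Set G) ∧ IsCompact (L : Set G)}, L.1 < L'.1 := by
    rintro ⟨L, hLo, hLc⟩
    have hx : ∃ x, x ∉ L := by
      by_contra h
      push Not at h
      apply hnc
      constructor
      have : (Set.univ : Set G) = L := by
        ext x; simp [h x]
      rw [this]; exact hLc
    obtain ⟨x, hx⟩ := hx
    obtain ⟨L', h1, h2, h3⟩ := exists_compact_open hN hC ((L : Set G) ∪ {x})
      (hLc.union isCompact_singleton)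
    refine ⟨⟨L', h1, h2⟩, ?_⟩
    refine lt_of_le_of_ne (fun y hy => h3 (Or.inl hy)) ?_
    rintro rfl
    exact hx (h3 (Or.inr rfl))
  choose f hf using hstep
  obtain ⟨L0, h01, h02, -⟩ := exists_compact_open hN hC ∅ isCompact_empty
  let K' : ℕ → {L : Subgroup G // IsOpen (L : Set G) ∧ IsCompact (L : Set G)} :=
    fun n => f^[n] ⟨L0, h01, h02⟩
  have hlt : ∀ n, (K' n).1 < (K' (n + 1)).1 := by
    intro n
    have : K' (n + 1) = f (K' n) := by
      simp only [K', Function.iterate_succ', Function.comp]
    rw [this]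
    exact hf _
  have hmono : StrictMono (fun n => (K' n).1) := strictMono_nat_of_lt_succ hlt
  have hdir : Directed (· ≤ ·) (fun n => (K' n).1) := hmono.monotone.directed_le
  have hdir' : Directed (· ⊆ ·) (fun n => ((K' n).1 : Set G)) := hdir
  set U : Subgroup G := ⨆ n, (K' n).1 with hU
  have hUc : (U : Set G) = ⋃ n, ((K' n).1 : Set G) := Subgroup.coe_iSup_of_directed hdir
  have hUo : IsOpen (U : Set G) := by
    rw [hUc]; exact isOpen_iUnion (fun n => (K' n).2.1)
  have hUtop : U = ⊤ := by
    by_contra h
    have hc := hC U (Subgroup.isClosed_of_isOpen _ hUo) h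
    obtain ⟨n, hn⟩ := hc.elim_directed_cover (fun n => ((K' n).1 : Set G))
      (fun n => (K' n).2.1) hUc.le hdir'
    have : (K' (n + 1)).1 ≤ (K' n).1 := by
      intro x hx
      apply hn
      rw [hUc]
      exact Set.mem_iUnion.mpr ⟨n + 1, hx⟩
    exact absurd (hlt n) (not_lt_of_ge this)
  refine ⟨fun n => (K' n).1, hmono.monotone, fun n => (K' n).2.1, fun n => (K' n).2.2, ?_⟩
  intro Q hQ
  apply hQ.elim_directed_cover (fun n => ((K' n).1 : Set G)) (fun n => (K' n).2.1) _ hdir'
  rw [← hUc, hUtop]
  exact Set.subset_univ _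

end Pool.Agent.H80.LN
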