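import Pool.Agent.H80.LN.A

set_option autoImplicit false

open Topology Set
open scoped Pointwise commutatorElement

namespace Pool.Agent.H80.LN

theorem finite_of_ker_range {Q A : Type*} [Group Q] [Group A] (f : Q →* A)
    (h1 : (f.range : Set A).Finite) (h2 : (f.ker : Set Q).Finite) : Finite Q := by
  have : Finite f.range := h1
  have : Finite f.ker := h2
  have : Finite (Q ⧸ f.ker) := Finite.of_equiv _ (QuotientGroup.quotientKerEquivRange f).symm.toEquiv
  exact Finite.of_subgroup_quotient f.ker

theorem exists_functional {p : ℕ} [Fact p.Prime] {M : Type*} [AddCommGroup M] [Module (ZMod p) M]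
    (x : M) (hx : x ≠ 0) : ∃ φ : M →+ ZMod p, φ x ≠ 0 := by
  by_contra hcon
  push Not at hcon
  exact hx ((Module.forall_dual_apply_eq_zero_iff (ZMod p) x).mp
    (fun φ => hcon φ.toAddMonoidHom))

theorem exists_prufer (Q : Type*) [Group Q] [Infinite Q] (comm : ∀ a b : Q, a * b = b * a)
    (h : ∀ H : Subgroup Q, H ≠ ⊤ → (H : Set Q).Finite) :
    ∃ p : ℕ, p.Prime ∧ ∃ x : ℕ → Q, x 0 ≠ 1 ∧ x 0 ^ p = 1 ∧ ∀ i, x (i + 1) ^ p = x i := by
  letI : CommGroup Q := { (inferInstance : Group Q) with mul_comm := comm }
  have htors : ∀ x : Q, IsOfFinOrder x := by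
    intro x
    letI : TopologicalSpace Q := ⊥
    have : DiscreteTopology Q := ⟨rfl⟩
    exact isOfFinOrder_of_discrete (fun H _ hH => (h H hH).isCompact) x
  have hdiv : ∀ p : ℕ, p.Prime → (powMonoidHom p : Q →* Q).range = ⊤ := by
    intro p hp
    by_contra hr
    have hk : (powMonoidHom p : Q →* Q).ker = ⊤ := by
      by_contra hk
      have := finite_of_ker_range _ (h _ hr) (h _ hk)
      exact not_finite Q
    have hpow : ∀ x : Q, x ^ p = 1 := by
      intro x
      have : x ∈ (powMonoidHom p : Q →* Q).ker := by rw [hk]; trivial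
      simpa using this
    have : Fact p.Prime := ⟨hp⟩
    letI : Module (ZMod p) (Additive Q) := AddCommGroup.zmodModule (n := p) (by
      intro x
      exact hpow x.toMul)
    obtain ⟨x, hx⟩ := exists_ne (1 : Q)
    have hx' : (Additive.ofMul x) ≠ 0 := hx
    obtain ⟨φ, hφ⟩ := exists_functional (p := p) (Additive.ofMul x) hx'
    let g : Q →* Multiplicative (ZMod p) := AddMonoidHom.toMultiplicativeRight φ
    have hg : g.ker ≠ ⊤ := by
      intro hg
      have : x ∈ g.ker := by rw [hg]; trivial
      rw [MonoidHom.mem_ker] at this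
      exact hφ this
    have := finite_of_ker_range g (Set.toFinite _) (h _ hg)
    exact not_finite Q
  obtain ⟨y, hy⟩ := exists_ne (1 : Q)
  have hyo : orderOf y ≠ 1 := by rwa [ne_eq, orderOf_eq_one_iff]
  have hy0 : orderOf y ≠ 0 := (orderOf_pos_iff.mpr (htors y)).ne'
  set p := (orderOf y).minFac with hp
  have hpp : p.Prime := Nat.minFac_prime hyo
  have hdvd : p ∣ orderOf y := Nat.minFac_dvd _
  set x0 := y ^ (orderOf y / p) with hx0
  have ho : orderOf x0 = p := orderOf_pow_orderOf_div hy0 hdvd
  have hroot : ∀ x : Q, ∃ z : Q, z ^ p = x := by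
    intro x
    have : x ∈ (powMonoidHom p : Q →* Q).range := by rw [hdiv p hpp]; trivial
    obtain ⟨z, hz⟩ := this
    exact ⟨z, hz⟩
  choose r hr using hroot
  refine ⟨p, hpp, fun n => r^[n] x0, ?_, ?_, ?_⟩
  · intro h1
    simp only [Function.iterate_zero, id] at h1
    rw [h1, orderOf_one] at ho
    exact hpp.one_lt.ne ho
  · simp only [Function.iterate_zero, id]
    rw [← ho]
    exact pow_orderOf_eq_one x0
  · intro i
    simp only [Function.iterate_succ', Function.comp]
    exact hr _

variable {G : Type*} [Group G] [TopologicalSpace G] [IsTopologicalGroup G]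

theorem isCompact_univ_of_finite_quotient (S : Subgroup G) (hS : IsCompact (S : Set G))
    (hf : Finite (G ⧸ S)) : IsCompact (Set.univ : Set G) := by
  have : (Set.univ : Set G) = ⋃ q : G ⧸ S, (fun z => q.out * z) '' (S : Set G) := by
    symm
    rw [Set.eq_univ_iff_forall]
    intro g
    refine Set.mem_iUnion.mpr ⟨(g : G ⧸ S), ((g : G ⧸ S).out)⁻¹ * g, ?_, by simp⟩
    have := QuotientGroup.out_eq' (g : G ⧸ S)
    exact QuotientGroup.eq.mp this
  rw [this]
  exact isCompact_iUnion (fun q => hS.image (continuous_const.mul continuous_id))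

theorem comm_of_not_perfect [T2Space G]
    (hC : ∀ H : Subgroup G, IsClosed (H : Set G) → H ≠ ⊤ → IsCompact (H : Set G))
    (hnc : ¬ IsCompact (Set.univ : Set G))
    (hK : ∀ Q : Set G, IsCompact Q → ∃ L : Subgroup G, IsOpen (L : Set G) ∧
      IsCompact (L : Set G) ∧ Q ⊆ L)
    (hM : (commutator G).topologicalClosure ≠ ⊤) : ∀ a b : G, a * b = b * a := by
  obtain ⟨K, hKo, hKc, hMK⟩ := hK _ (hC _ (Subgroup.isClosed_topologicalClosure _) hM)
  have hcK : commutator G ≤ K := (Subgroup.le_topologicalClosure _).trans hMK
  have hKn : K.Normal := Subgroup.Normal.of_commutator_le _ hcK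
  have hcomm : IsMulCommutative (G ⧸ K) :=
    Subgroup.Normal.quotient_commutative_iff_commutator_le.mpr hcK
  have hinf : Infinite (G ⧸ K) := by
    by_contra h
    rw [not_infinite_iff_finite] at h
    exact hnc (isCompact_univ_of_finite_quotient K hKc h)
  have hdisc : DiscreteTopology (G ⧸ K) := QuotientGroup.discreteTopology hKo
  have hfin : ∀ H : Subgroup (G ⧸ K), H ≠ ⊤ → (H : Set (G ⧸ K)).Finite := by
    intro H hH
    set H' := H.comap (QuotientGroup.mk' K) with hH'
    have hKH : K ≤ H' := by
      intro k hk
      rw [hH', Subgroup.mem_comap]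
      have : (QuotientGroup.mk' K) k = 1 := by simpa using hk
      rw [this]; exact one_mem _
    have hH'o : IsOpen (H' : Set G) := Subgroup.isOpen_mono hKH hKo
    have hH'c := hC H' (Subgroup.isClosed_of_isOpen _ hH'o) (by
      intro h
      apply hH
      rw [eq_top_iff]
      intro q _
      obtain ⟨g, rfl⟩ := QuotientGroup.mk'_surjective K q
      have : g ∈ H' := by rw [h]; trivial
      exact this)
    have : (H : Set (G ⧸ K)) = (QuotientGroup.mk' K) '' (H' : Set G) := by
      rw [hH', Subgroup.coe_comap, Set.image_preimage_eq _ (QuotientGroup.mk'_surjective K)]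
    rw [this, ← isCompact_iff_finite]
    exact hH'c.image continuous_quotient_mk'
  obtain ⟨p, hp, x, hx0, hx0p, hx⟩ := exists_prufer (G ⧸ K)
    (fun a b => hcomm.is_comm.comm a b) hfin
  choose g hg using fun i => QuotientGroup.mk'_surjective K (x i)
  have hxpow : ∀ i k, x (i + k) ^ (p ^ k) = x i := by
    intro i k
    induction k with
    | zero => simp
    | succ k ih =>
      rw [pow_succ', pow_mul, ← add_assoc, hx, ih]
  set y : ℕ → ℕ → G := fun n i => if i ≤ n then g n ^ (p ^ (n - i)) else g i with hy
  have hymk : ∀ n i, QuotientGroup.mk' K (y n i) = x i := by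
    intro n i
    simp only [hy]
    split_ifs with h
    · rw [map_pow, hg]
      obtain ⟨k, rfl⟩ := Nat.exists_eq_add_of_le h
      rw [Nat.add_sub_cancel_left]
      exact hxpow i k
    · exact hg i
  set C : Set (ℕ → G) := Set.pi Set.univ (fun i => {z : G | QuotientGroup.mk' K z = x i}) with hCdef
  have hCc : IsCompact C := by
    apply isCompact_univ_pi
    intro i
    have : {z : G | QuotientGroup.mk' K z = x i} = (fun z => g i * z) '' (K : Set G) := by
      ext z
      simp only [Set.mem_ofPred_eq, Set.mem_image, SetLike.mem_coe]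
      constructor
      · intro hz
        refine ⟨(g i)⁻¹ * z, ?_, by group⟩
        rw [← hg i] at hz
        exact QuotientGroup.eq.mp hz.symm
      · rintro ⟨k, hk, rfl⟩
        rw [map_mul, hg]
        have : (QuotientGroup.mk' K) k = 1 := by simpa using hk
        rw [this, mul_one]
    rw [this]
    exact hKc.image (continuous_const.mul continuous_id)
  have hyC : ∀ n, y n ∈ C := by
    intro n
    rw [hCdef]
    intro i _
    exact hymk n i
  obtain ⟨a, haC, ha⟩ := hCc.exists_mapClusterPt_of_frequently (l := Filter.atTop) (f := y)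
    (Filter.Eventually.frequently (Filter.Eventually.of_forall hyC))
  have hax : ∀ i, QuotientGroup.mk' K (a i) = x i := fun i => haC i (Set.mem_univ i)
  have hap : ∀ i, a (i + 1) ^ p = a i := by
    intro i
    have hcl : IsClosed {z : ℕ → G | z (i + 1) ^ p = z i} := by
      apply isClosed_eq
      · exact (continuous_apply (i + 1)).pow p
      · exact continuous_apply i
    have hev : ∀ᶠ n in Filter.atTop, y n ∈ {z : ℕ → G | z (i + 1) ^ p = z i} := by
      filter_upwards [Filter.eventually_ge_atTop (i + 1)] with n hn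
      simp only [hy, Set.mem_ofPred_eq]
      rw [if_pos hn, if_pos (by omega), ← pow_mul, ← pow_succ]
      congr 2
      omega
    have := isClosed_iff_clusterPt.mp hcl a (ha.clusterPt.mono (Filter.le_principal_iff.mpr hev))
    exact this
  have hapow : ∀ i k, a (i + k) ^ (p ^ k) = a i := by
    intro i k
    induction k with
    | zero => simp
    | succ k ih =>
      rw [pow_succ', pow_mul, ← add_assoc, hap, ih]
  have hacomm : ∀ i j, a i * a j = a j * a i := by
    have h1 : ∀ i k, a i * a (i + k) = a (i + k) * a i := by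
      intro i k
      rw [← hapow i k]
      exact (Commute.refl (a (i + k))).pow_left _
    intro i j
    rcases le_total i j with h | h
    · obtain ⟨k, rfl⟩ := Nat.exists_eq_add_of_le h
      exact h1 i k
    · obtain ⟨k, rfl⟩ := Nat.exists_eq_add_of_le h
      exact (h1 j k).symm
  set A := Subgroup.closure (Set.range a) with hA
  have hAA : ⁅A, A⁆ ≤ ⊥ := by
    rw [le_bot_iff, Subgroup.commutator_eq_bot_iff_le_centralizer]
    have h1 : Set.range a ⊆ Subgroup.centralizer (Set.range a) := by
      rintro _ ⟨i, rfl⟩
      rw [SetLike.mem_coe, Subgroup.mem_centralizer_iff]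
      rintro _ ⟨j, rfl⟩
      exact hacomm j i
    have h2 : A ≤ Subgroup.centralizer (Set.range a) := by
      rw [hA, Subgroup.closure_le]; exact h1
    rw [hA, Subgroup.closure_le]
    intro z hz
    rw [SetLike.mem_coe, Subgroup.mem_centralizer_iff]
    intro w hw
    have := h2 hw
    rw [Subgroup.mem_centralizer_iff] at this
    exact (this z hz).symm
  have hxinj : Function.Injective x := by
    have ho : ∀ i, orderOf (x i) = p ^ (i + 1) := by
      intro i
      have : Fact p.Prime := ⟨hp⟩
      have h0 := hxpow 0 i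
      rw [zero_add] at h0
      apply orderOf_eq_prime_pow
      · rw [h0]; exact hx0
      · rw [pow_succ, pow_mul, h0]; exact hx0p
    intro i j hij
    have h1 := ho i
    rw [hij, ho j] at h1
    have := Nat.pow_right_injective hp.two_le h1
    omega
  have hAtop : A.topologicalClosure = ⊤ := by
    by_contra h
    have hc := hC _ (Subgroup.isClosed_topologicalClosure _) h
    have hc2 := hc.image (f := QuotientGroup.mk' K) continuous_quotient_mk'
    rw [isCompact_iff_finite] at hc2
    have : (Set.range x).Finite := by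
      apply hc2.subset
      rintro _ ⟨i, rfl⟩
      exact ⟨a i, Subgroup.le_topologicalClosure _ (Subgroup.subset_closure ⟨i, rfl⟩), hax i⟩
    exact Set.infinite_range_of_injective hxinj this
  have h1 := commutator_topologicalClosure_le (G := G) (H₁ := A) (H₂ := A) (S := ⊥)
    (by rw [Subgroup.coe_bot]; exact isClosed_singleton) hAA
  rw [hAtop, Subgroup.commutator_le] at h1
  intro a b
  have := h1 a trivial b trivial
  rw [Subgroup.mem_bot, commutatorElement_eq_one_iff_mul_comm] at this
  exact this

end Pool.Agent.H80.LN
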