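import Pool.Agent.H80.LN.B

set_option autoImplicit false

open Topology Set
open scoped Pointwise commutatorElement

namespace Pool.Agent.H80.LN

theorem nilp_subgroup {G : Type*} [Group G]
    (hN : ∀ s : Finset G, Group.IsNilpotent (Subgroup.closure (s : Set G))) (L : Subgroup G)
    (s : Finset L) : Group.IsNilpotent (Subgroup.closure (s : Set L)) := by
  classical
  have h1 := hN (s.image (L.subtype))
  have h2 : Subgroup.closure ((s.image (L.subtype) : Finset G) : Set G)
      = (Subgroup.closure (s : Set L)).map L.subtype := by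
    rw [MonoidHom.map_closure, Finset.coe_image]
  rw [h2] at h1
  exact Group.nilpotent_of_mulEquiv
    ((Subgroup.closure (s : Set L)).equivMapOfInjective L.subtype L.subtype_injective).symm

theorem exists_finset_map_surj {L Q : Type*} [Group L] [Group Q] [Finite Q] (π : L →* Q)
    (hπ : Function.Surjective π) : ∃ s : Finset L,
      Function.Surjective (π.comp (Subgroup.closure (s : Set L)).subtype) := by
  classical
  cases nonempty_fintype Q
  choose r hr using hπ
  refine ⟨Finset.univ.image r, ?_⟩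
  intro q
  refine ⟨⟨r q, Subgroup.subset_closure (by simp)⟩, ?_⟩
  simp [hr]

theorem nilpotent_finite_quotient {L Q : Type*} [Group L] [Group Q] [Finite Q]
    (hN : ∀ s : Finset L, Group.IsNilpotent (Subgroup.closure (s : Set L))) (π : L →* Q)
    (hπ : Function.Surjective π) : Group.IsNilpotent Q := by
  obtain ⟨s, hs⟩ := exists_finset_map_surj π hπ
  have := hN s
  exact Group.nilpotent_of_surjective _ hs

/-- a finite index proper subgroup `W` of a locally nilpotent group misses an element which is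
central modulo the normal core of `W`. -/
theorem exists_central_mod_core {L : Type*} [Group L]
    (hN : ∀ s : Finset L, Group.IsNilpotent (Subgroup.closure (s : Set L)))
    (W : Subgroup L) [W.FiniteIndex] (hW : W ≠ ⊤) :
    ∃ x, x ∉ W ∧ ∀ k : L, ⁅x, k⁆ ∈ W.normalCore := by
  have hfin : Finite (L ⧸ W.normalCore) := inferInstance
  have hnil : Group.IsNilpotent (L ⧸ W.normalCore) :=
    nilpotent_finite_quotient hN (QuotientGroup.mk' W.normalCore)
      (QuotientGroup.mk'_surjective _)
  have hnt : Nontrivial (L ⧸ W.normalCore) := by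
    rw [← not_subsingleton_iff_nontrivial]
    intro hs
    apply hW
    rw [eq_top_iff]
    intro x _
    apply Subgroup.normalCore_le W
    rw [← QuotientGroup.eq_one_iff]
    exact Subsingleton.elim _ _
  have hc := Group.IsNilpotent.center_ne_bot (G := L ⧸ W.normalCore)
  rw [Subgroup.ne_bot_iff_exists_ne_one] at hc
  obtain ⟨⟨z, hz⟩, hz1⟩ := hc
  obtain ⟨x, rfl⟩ := QuotientGroup.mk'_surjective _ z
  have hcomm : ∀ k : L, ⁅x, k⁆ ∈ W.normalCore := by
    intro k
    rw [← QuotientGroup.eq_one_iff]
    have := Subgroup.mem_center_iff.mp hz (QuotientGroup.mk' _ k)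
    have h2 : (QuotientGroup.mk' W.normalCore) ⁅x, k⁆ = 1 := by
      rw [map_commutatorElement, commutatorElement_eq_one_iff_mul_comm]
      exact this.symm
    exact h2
  refine ⟨x, ?_, hcomm⟩
  intro hx
  apply hz1
  have : x ∈ W.normalCore := by
    intro b
    have h1 : b * x * b⁻¹ = (⁅x, b⁆)⁻¹ * x := by
      simp [commutatorElement_def, mul_assoc]
    rw [h1]
    exact mul_mem (inv_mem (Subgroup.normalCore_le W (hcomm b))) hx
  rw [← QuotientGroup.eq_one_iff] at this
  exact Subtype.ext this

/-- The standing hypotheses of the perfect case. -/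
structure Ctx (G : Type*) [Group G] [TopologicalSpace G] [IsTopologicalGroup G] : Prop where
  nilp : ∀ s : Finset G, Group.IsNilpotent (Subgroup.closure (s : Set G))
  cpt : ∀ H : Subgroup G, IsClosed (H : Set G) → H ≠ ⊤ → IsCompact (H : Set G)
  nc : ¬ IsCompact (Set.univ : Set G)
  exh : ∃ K : ℕ → Subgroup G, Monotone K ∧ (∀ n, IsOpen (K n : Set G)) ∧
      (∀ n, IsCompact (K n : Set G)) ∧ ∀ Q : Set G, IsCompact Q → ∃ n, Q ⊆ K n
  perf : (commutator G).topologicalClosure = ⊤

/-- The largest subset of `W` invariant under conjugation by `K`. -/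
def coreIn {G : Type*} [Group G] (K W : Subgroup G) : Subgroup G where
  carrier := {w | ∀ l ∈ K, l * w * l⁻¹ ∈ W}
  mul_mem' := by
    intro a b ha hb l hl
    have : l * (a * b) * l⁻¹ = (l * a * l⁻¹) * (l * b * l⁻¹) := by group
    rw [this]
    exact mul_mem (ha l hl) (hb l hl)
  one_mem' := by
    intro l _
    simp
  inv_mem' := by
    intro a ha l hl
    have : l * a⁻¹ * l⁻¹ = (l * a * l⁻¹)⁻¹ := by group
    rw [this]
    exact inv_mem (ha l hl)

section
variable {G : Type*} [Group G]

theorem mem_coreIn {K W : Subgroup G} {w : G} : w ∈ coreIn K W ↔ ∀ l ∈ K, l * w * l⁻¹ ∈ W :=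
  Iff.rfl

theorem coreIn_le {K W : Subgroup G} : coreIn K W ≤ W := by
  intro w hw
  have := hw 1 (one_mem _)
  simpa using this

theorem coreIn_anti {K K' W : Subgroup G} (h : K ≤ K') : coreIn K' W ≤ coreIn K W :=
  fun _ hw l hl => hw l (h hl)

theorem conj_mem_coreIn {K W : Subgroup G} {w g : G} (hg : g ∈ K) (hw : w ∈ coreIn K W) :
    g * w * g⁻¹ ∈ coreIn K W := by
  intro l hl
  have : l * (g * w * g⁻¹) * l⁻¹ = (l * g) * w * (l * g)⁻¹ := by group
  rw [this]
  exact hw _ (mul_mem hl hg)

end

variable {G : Type*} [Group G] [TopologicalSpace G] [IsTopologicalGroup G]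

omit [IsTopologicalGroup G] in
theorem isClosed_setOf_mem {S : Subgroup G} (hS : IsClosed (S : Set G)) {f : G → G}
    (hf : Continuous f) : IsClosed {x | f x ∈ S} := hS.preimage hf

/-- normaliser-like sets are closed -/
theorem isClosed_coreIn (K W : Subgroup G) (hW : IsClosed (W : Set G)) :
    IsClosed (coreIn K W : Set G) := by
  have : (coreIn K W : Set G) = ⋂ l : K, {w : G | (l : G) * w * (l : G)⁻¹ ∈ W} := by
    ext w
    simp [mem_coreIn]
  rw [this]
  apply isClosed_iInter
  intro l
  exact isClosed_setOf_mem hW (by fun_prop)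

theorem isClosed_normalCore (W : Subgroup G) (hW : IsClosed (W : Set G)) :
    IsClosed (W.normalCore : Set G) := by
  have : (W.normalCore : Set G) = ⋂ l : G, {w : G | l * w * l⁻¹ ∈ W} := by
    ext w
    simp only [Set.mem_iInter]
    rfl
  rw [this]
  apply isClosed_iInter
  intro l
  exact isClosed_setOf_mem hW (by fun_prop)

/-- the subgroup of elements central modulo `N` -/
def cenMod (N : Subgroup G) [N.Normal] : Subgroup G :=
  (Subgroup.center (G ⧸ N)).comap (QuotientGroup.mk' N)

omit [TopologicalSpace G] [IsTopologicalGroup G] in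
theorem mem_cenMod {N : Subgroup G} [N.Normal] {x : G} :
    x ∈ cenMod N ↔ ∀ g, ⁅x, g⁆ ∈ N := by
  rw [cenMod, Subgroup.mem_comap, Subgroup.mem_center_iff]
  constructor
  · intro h g
    rw [← QuotientGroup.eq_one_iff]
    have h2 : (QuotientGroup.mk' N) ⁅x, g⁆ = 1 := by
      rw [map_commutatorElement, commutatorElement_eq_one_iff_mul_comm]
      exact (h _).symm
    exact h2
  · intro h q
    obtain ⟨g, rfl⟩ := QuotientGroup.mk'_surjective _ q
    have h2 : (QuotientGroup.mk' N) ⁅x, g⁆ = 1 := (QuotientGroup.eq_one_iff _).mpr (h g)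
    rw [map_commutatorElement, commutatorElement_eq_one_iff_mul_comm] at h2
    exact h2.symm

theorem isClosed_cenMod (N : Subgroup G) [N.Normal] (hN : IsClosed (N : Set G)) :
    IsClosed (cenMod N : Set G) := by
  have : (cenMod N : Set G) = ⋂ g : G, {x : G | ⁅x, g⁆ ∈ N} := by
    ext x
    simp only [SetLike.mem_coe, mem_cenMod, Set.mem_iInter, Set.mem_ofPred_eq]
  rw [this]
  apply isClosed_iInter
  intro g
  apply isClosed_setOf_mem hN
  simp only [commutatorElement_def]
  fun_prop

/-- the subgroup of elements commuting with `x` modulo `N` -/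
def cenModOf (N : Subgroup G) [N.Normal] (x : G) : Subgroup G :=
  (Subgroup.centralizer {QuotientGroup.mk' N x}).comap (QuotientGroup.mk' N)

omit [TopologicalSpace G] [IsTopologicalGroup G] in
theorem mem_cenModOf {N : Subgroup G} [N.Normal] {x g : G} :
    g ∈ cenModOf N x ↔ ⁅x, g⁆ ∈ N := by
  rw [cenModOf, Subgroup.mem_comap, Subgroup.mem_centralizer_singleton_iff]
  rw [← QuotientGroup.eq_one_iff]
  have h2 : ((⁅x, g⁆ : G) : G ⧸ N) = ⁅QuotientGroup.mk' N x, QuotientGroup.mk' N g⁆ := by
    rw [← map_commutatorElement]; rfl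
  rw [h2, commutatorElement_eq_one_iff_mul_comm]
  exact eq_comm

theorem isClosed_cenModOf (N : Subgroup G) [N.Normal] (hN : IsClosed (N : Set G)) (x : G) :
    IsClosed (cenModOf N x : Set G) := by
  have : (cenModOf N x : Set G) = {g : G | ⁅x, g⁆ ∈ N} := by
    ext g
    simp only [SetLike.mem_coe, mem_cenModOf, Set.mem_ofPred_eq]
  rw [this]
  refine isClosed_setOf_mem (f := fun g => ⁅x, g⁆) hN ?_
  simp only [commutatorElement_def]
  fun_prop

/-- Step C1. -/
theorem Ctx.step1 [T2Space G] (c : Ctx G) (W : Subgroup G) (hWo : IsOpen (W : Set G))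
    (hWc : IsCompact (W : Set G)) : ∃ x, x ∉ W ∧ ∀ g : G, ⁅x, g⁆ ∈ W.normalCore := by
  obtain ⟨K0, hK0m, hK0o, hK0c, hK0e⟩ := c.exh
  have hWcl : IsClosed (W : Set G) := hWc.isClosed
  have hyW : ∃ y, y ∉ W := by
    by_contra h
    push Not at h
    apply c.nc
    have : (Set.univ : Set G) = W := by
      ext x; simp [h x]
    rw [this]; exact hWc
  obtain ⟨y, hy⟩ := hyW
  obtain ⟨n0, hn0⟩ := hK0e ((W : Set G) ∪ {y}) (hWc.union isCompact_singleton)
  set K : ℕ → Subgroup G := fun n => K0 (n + n0) with hKdef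
  have hKm : Monotone K := fun a b hab => hK0m (by omega)
  have hKc : ∀ n, IsCompact (K n : Set G) := fun n => hK0c _
  have hKe : ∀ Q : Set G, IsCompact Q → ∃ n, Q ⊆ K n := by
    intro Q hQ
    obtain ⟨n, hn⟩ := hK0e Q hQ
    exact ⟨n, hn.trans (hK0m (by omega))⟩
  have hWK : ∀ n, W ≤ K n := by
    intro n w hw
    exact hK0m (by omega : n0 ≤ n + n0) (hn0 (Or.inl hw))
  have hyK : ∀ n, y ∈ K n := fun n => hK0m (by omega : n0 ≤ n + n0) (hn0 (Or.inr rfl))
  have hex : ∀ n, ∃ x, x ∈ K n ∧ x ∉ W ∧ ∀ k ∈ K n, ⁅x, k⁆ ∈ coreIn (K n) W := by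
    intro n
    have hcs : CompactSpace (K n) := isCompact_iff_compactSpace.mp (hKc n)
    have hopen : IsOpen ((W.subgroupOf (K n) : Subgroup (K n)) : Set (K n)) :=
      hWo.preimage continuous_subtype_val
    have hfin : Finite ((K n) ⧸ (W.subgroupOf (K n))) := Subgroup.quotient_finite_of_isOpen _ hopen
    have hfi : (W.subgroupOf (K n)).FiniteIndex := Subgroup.finiteIndex_of_finite_quotient
    obtain ⟨x, hx1, hx2⟩ := exists_central_mod_core (nilp_subgroup c.nilp (K n))
      (W.subgroupOf (K n)) (by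
        intro h
        have : (⟨y, hyK n⟩ : K n) ∈ W.subgroupOf (K n) := by rw [h]; trivial
        exact hy this)
    refine ⟨x, x.2, hx1, ?_⟩
    intro k hk l hl
    exact hx2 ⟨k, hk⟩ ⟨l, hl⟩
  choose x hxK hxW hxc using hex
  by_cases hb : ∃ m, ∃ᶠ n in Filter.atTop, x n ∈ K m
  · obtain ⟨m, hm⟩ := hb
    obtain ⟨a, haK, ha⟩ := (hKc m).exists_mapClusterPt_of_frequently hm
    have hclus : ∀ S : Set G, IsClosed S → (∀ᶠ n in Filter.atTop, x n ∈ S) → a ∈ S := by
      intro S hS hev
      exact isClosed_iff_clusterPt.mp hS a (ha.clusterPt.mono (Filter.le_principal_iff.mpr hev))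
    refine ⟨a, ?_, ?_⟩
    · exact hclus (W : Set G)ᶜ (hWo.isClosed_compl) (Filter.Eventually.of_forall hxW)
    · intro g l
      obtain ⟨r, hr⟩ := hKe {g, l} (Set.toFinite _).isCompact
      apply hclus {z | l * ⁅z, g⁆ * l⁻¹ ∈ W}
      · refine isClosed_setOf_mem (f := fun z => l * ⁅z, g⁆ * l⁻¹) hWcl ?_
        simp only [commutatorElement_def]
        fun_prop
      · filter_upwards [Filter.eventually_ge_atTop r] with n hn
        exact hxc n g (hKm hn (hr (by simp))) l (hKm hn (hr (by simp)))
  · exfalso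
    push Not at hb
    set N := coreIn (K 0) W with hN
    have hNcl : IsClosed (N : Set G) := isClosed_coreIn _ _ hWcl
    set H := Subgroup.closure (Set.range x) with hH
    have hHtop : H.topologicalClosure = ⊤ := by
      by_contra h
      obtain ⟨m, hm⟩ := hKe _ (c.cpt _ (Subgroup.isClosed_topologicalClosure _) h)
      obtain ⟨n, hn⟩ := (hb m).exists
      exact hn (hm (Subgroup.le_topologicalClosure _ (Subgroup.subset_closure ⟨n, rfl⟩)))
    have hcm : ∀ n, ∀ k ∈ K n, ⁅x n, k⁆ ∈ N := fun n k hk => coreIn_anti (hKm (Nat.zero_le n))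
      (hxc n k hk)
    have hcm' : ∀ n, ∀ k ∈ K n, ⁅(x n)⁻¹, k⁆ ∈ N := by
      intro n k hk
      apply coreIn_anti (hKm (Nat.zero_le n))
      have h1 : ⁅(x n)⁻¹, k⁆ = (x n)⁻¹ * (⁅x n, k⁆)⁻¹ * (x n)⁻¹⁻¹ := by
        simp [commutatorElement_def, mul_assoc]
      rw [h1]
      exact conj_mem_coreIn (inv_mem (hxK n)) (inv_mem (hxc n k hk))
    have hnorm : ∀ g : G, ∀ w ∈ N, g * w * g⁻¹ ∈ N := by
      have h1 : H ≤ Subgroup.normalizer (N : Set G) := by
        rw [hH, Subgroup.closure_le]
        rintro _ ⟨n, rfl⟩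
        rw [SetLike.mem_coe, Subgroup.mem_normalizer_iff]
        have hA : ∀ w ∈ N, x n * w * (x n)⁻¹ ∈ N := by
          intro w hw
          have h2 : x n * w * (x n)⁻¹ = ⁅x n, w⁆ * w := by
            simp [commutatorElement_def, mul_assoc]
          rw [h2]
          exact mul_mem (hcm n w (hWK n (coreIn_le hw))) hw
        have hB : ∀ w ∈ N, (x n)⁻¹ * w * x n ∈ N := by
          intro w hw
          have h2 : (x n)⁻¹ * w * x n = ⁅(x n)⁻¹, w⁆ * w := by
            simp [commutatorElement_def, mul_assoc]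
          rw [h2]
          exact mul_mem (hcm' n w (hWK n (coreIn_le hw))) hw
        intro w
        refine ⟨hA w, fun hw => ?_⟩
        have := hB _ hw
        have h3 : (x n)⁻¹ * (x n * w * (x n)⁻¹) * x n = w := by group
        rwa [h3] at this
      have h2 : ∀ w ∈ N, ∀ g : G, g * w * g⁻¹ ∈ N := by
        intro w hw g
        have hcl : IsClosed {g : G | g * w * g⁻¹ ∈ N} := isClosed_setOf_mem hNcl (by fun_prop)
        have hsub : (H : Set G) ⊆ {g : G | g * w * g⁻¹ ∈ N} := by
          intro g hg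
          exact (Subgroup.mem_normalizer_iff.mp (h1 hg) w).mp hw
        have h3 := closure_minimal hsub hcl
        rw [← Subgroup.topologicalClosure_coe, hHtop] at h3
        exact h3 (Subgroup.mem_top g)
      exact fun g w hw => h2 w hw g
    have hNn : N.Normal := ⟨fun w hw g => hnorm g w hw⟩
    have hgen : ∀ i j, ⁅x i, x j⁆ ∈ N := by
      intro i j
      rcases le_total i j with h | h
      · rw [← commutatorElement_inv]
        exact inv_mem (hcm j _ (hKm h (hxK i)))
      · exact hcm i _ (hKm h (hxK j))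
    have hcen1 : ∀ i, cenModOf N (x i) = ⊤ := by
      intro i
      rw [eq_top_iff, ← hHtop]
      apply Subgroup.topologicalClosure_minimal
      · rw [hH, Subgroup.closure_le]
        rintro _ ⟨j, rfl⟩
        exact mem_cenModOf.mpr (hgen i j)
      · exact isClosed_cenModOf N hNcl _
    have hcen : cenMod N = ⊤ := by
      rw [eq_top_iff, ← hHtop]
      apply Subgroup.topologicalClosure_minimal
      · rw [hH, Subgroup.closure_le]
        rintro _ ⟨j, rfl⟩
        apply mem_cenMod.mpr
        intro g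
        apply mem_cenModOf.mp
        rw [hcen1]; trivial
      · exact isClosed_cenMod N hNcl
    have hle : (commutator G).topologicalClosure ≤ N := by
      apply Subgroup.topologicalClosure_minimal _ _ hNcl
      rw [commutator_def, Subgroup.commutator_le]
      intro a _ b _
      apply mem_cenMod.mp
      rw [hcen]; trivial
    rw [c.perf] at hle
    exact hy (coreIn_le (hle (Subgroup.mem_top y)))

end Pool.Agent.H80.LN
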