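import Pool.Agent.H80.LN.C1

set_option autoImplicit false

open Topology Set
open scoped Pointwise commutatorElement

namespace Pool.Agent.H80.LN

variable {G : Type*} [Group G] [TopologicalSpace G] [IsTopologicalGroup G]

/-- three subgroups lemma consequence: in the topologically perfect case, `closure [R,G]` is
unchanged by a second commutation. -/
theorem Ctx.sharp (c : Ctx G) (R : Subgroup G) [R.Normal] :
    (⁅R, (⊤ : Subgroup G)⁆).topologicalClosure ≤
      (⁅(⁅R, (⊤ : Subgroup G)⁆).topologicalClosure, (⊤ : Subgroup G)⁆).topologicalClosure := by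
  set R1 := (⁅R, (⊤ : Subgroup G)⁆).topologicalClosure with hR1
  set D := (⁅R1, (⊤ : Subgroup G)⁆).topologicalClosure with hD
  have hR1n : R1.Normal := Subgroup.is_normal_topologicalClosure _
  have hDn : D.Normal := Subgroup.is_normal_topologicalClosure _
  have hDcl : IsClosed (D : Set G) := Subgroup.isClosed_topologicalClosure _
  have hx : ∀ x ∈ R, cenModOf D x = ⊤ := by
    intro x hx
    have h1 : commutator G ≤ cenModOf D x := by
      rw [commutator_def, Subgroup.commutator_le]
      intro a _ b _
      rw [mem_cenModOf]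
      -- elements `[x, g]` are central modulo `D`
      have hc : ∀ g h : G, ⁅⁅x, g⁆, h⁆ ∈ D := by
        intro g h
        apply Subgroup.le_topologicalClosure
        apply Subgroup.commutator_mem_commutator _ (Subgroup.mem_top h)
        apply Subgroup.le_topologicalClosure
        exact Subgroup.commutator_mem_commutator hx (Subgroup.mem_top g)
      -- pass to the quotient
      have hq : ∀ g h : G, Commute (QuotientGroup.mk' D ⁅x, g⁆) (QuotientGroup.mk' D h) := by
        intro g h
        have h2 : (QuotientGroup.mk' D) ⁅⁅x, g⁆, h⁆ = 1 := (QuotientGroup.eq_one_iff _).mpr (hc g h)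
        rw [map_commutatorElement, commutatorElement_eq_one_iff_mul_comm] at h2
        exact h2
      rw [← QuotientGroup.eq_one_iff]
      have key : ∀ u v w : G ⧸ D, (∀ g h : G ⧸ D, Commute ⁅u, g⁆ h) → ⁅u, ⁅v, w⁆⁆ = 1 := by
        intro u v w huv
        have hmul : ∀ g h : G ⧸ D, ⁅u, g * h⁆ = ⁅u, g⁆ * ⁅u, h⁆ := by
          intro g h
          have h1 : ⁅u, g * h⁆ = ⁅u, g⁆ * (g * ⁅u, h⁆ * g⁻¹) := by
            simp [commutatorElement_def, mul_assoc]
          rw [h1]
          congr 1
          rw [← (huv h g).eq, mul_assoc, mul_inv_cancel, mul_one]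
        have hinv : ∀ g : G ⧸ D, ⁅u, g⁻¹⁆ = ⁅u, g⁆⁻¹ := by
          intro g
          have := hmul g g⁻¹
          rw [mul_inv_cancel, commutatorElement_one_right] at this
          exact (inv_eq_of_mul_eq_one_right this.symm).symm
        have h3 : ⁅u, ⁅v, w⁆⁆ = ⁅u, v⁆ * ⁅u, w⁆ * ⁅u, v⁆⁻¹ * ⁅u, w⁆⁻¹ := by
          conv_lhs => rw [commutatorElement_def v w]
          rw [hmul, hmul, hmul, hinv, hinv]
        rw [h3]
        have h4 := (huv v ⁅u, w⁆).eq
        rw [h4]
        group
      have h5 := key (QuotientGroup.mk' D x) (QuotientGroup.mk' D a) (QuotientGroup.mk' D b) (by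
        intro g h
        obtain ⟨g, rfl⟩ := QuotientGroup.mk'_surjective _ g
        obtain ⟨h, rfl⟩ := QuotientGroup.mk'_surjective _ h
        rw [← map_commutatorElement]
        exact hq g h)
      rw [← map_commutatorElement, ← map_commutatorElement] at h5
      exact h5
    rw [eq_top_iff, ← c.perf]
    exact Subgroup.topologicalClosure_minimal _ h1 (isClosed_cenModOf D hDcl x)
  apply Subgroup.topologicalClosure_minimal _ _ hDcl
  rw [Subgroup.commutator_le]
  intro x hxR g _
  apply mem_cenModOf.mp
  rw [hx x hxR]; trivial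

/-- Step C2. -/
theorem Ctx.step2 [T2Space G] (c : Ctx G) (W : Subgroup G) (hWc : IsCompact (W : Set G)) :
    ∃ R : Subgroup G, R.Normal ∧ IsCompact (R : Set G) ∧
      R ≤ (⁅R, (⊤ : Subgroup G)⁆).topologicalClosure ∧ ¬ R ≤ W := by
  by_contra hcon
  push Not at hcon
  have hWcl : IsClosed (W : Set G) := hWc.isClosed
  set C := W.normalCore with hC
  have hCcl : IsClosed (C : Set G) := isClosed_normalCore W hWcl
  have hall : ∀ R : Subgroup G, R.Normal → IsCompact (R : Set G) → R ≤ cenMod C := by
    intro R hRn hRc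
    have h1 : (⁅R, (⊤ : Subgroup G)⁆).topologicalClosure ≤ W := by
      apply hcon
      · exact Subgroup.is_normal_topologicalClosure _
      · apply hRc.of_isClosed_subset (Subgroup.isClosed_topologicalClosure _)
        apply Subgroup.topologicalClosure_minimal _ _ hRc.isClosed
        exact Subgroup.commutator_le_left R ⊤
      · exact c.sharp R
    have h2 : ⁅R, (⊤ : Subgroup G)⁆ ≤ C := by
      rw [hC, Subgroup.normal_le_normalCore]
      exact (Subgroup.le_topologicalClosure _).trans h1
    intro x hx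
    rw [mem_cenMod]
    intro g
    exact h2 (Subgroup.commutator_mem_commutator hx (Subgroup.mem_top g))
  have hScl : IsClosed (cenMod C : Set G) := isClosed_cenMod C hCcl
  by_cases hS : cenMod C = ⊤
  · have hle : (commutator G).topologicalClosure ≤ C := by
      apply Subgroup.topologicalClosure_minimal _ _ hCcl
      rw [commutator_def, Subgroup.commutator_le]
      intro a _ b _
      apply mem_cenMod.mp
      rw [hS]; trivial
    rw [c.perf] at hle
    apply c.nc
    have : (Set.univ : Set G) = W := by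
      ext x
      simp only [Set.mem_univ, true_iff]
      exact Subgroup.normalCore_le W (hle (Subgroup.mem_top x))
    rw [this]; exact hWc
  · have hSc := c.cpt _ hScl hS
    obtain ⟨K, hKm, hKo, hKc, hKe⟩ := c.exh
    obtain ⟨m, hm⟩ := hKe _ hSc
    obtain ⟨x, hxW, hx⟩ := c.step1 (K m) (hKo m) (hKc m)
    set C' := (K m).normalCore with hC'
    obtain ⟨m', hm'⟩ := hKe ((K m : Set G) ∪ {x}) ((hKc m).union isCompact_singleton)
    set T : Subgroup G := (Subgroup.zpowers (QuotientGroup.mk' C' x)).comap (QuotientGroup.mk' C')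
      with hT
    have hxT : x ∈ T := by
      rw [hT, Subgroup.mem_comap]; exact Subgroup.mem_zpowers _
    have hxcen : QuotientGroup.mk' C' x ∈ Subgroup.center (G ⧸ C') := by
      have : x ∈ cenMod C' := mem_cenMod.mpr hx
      exact this
    have hTn : T.Normal := by
      rw [hT]
      have : (Subgroup.zpowers (QuotientGroup.mk' C' x)).Normal := by
        constructor
        intro n hn g
        have hnc : n ∈ Subgroup.center (G ⧸ C') := by
          have : Subgroup.zpowers (QuotientGroup.mk' C' x) ≤ Subgroup.center (G ⧸ C') := by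
            rw [Subgroup.zpowers_le]; exact hxcen
          exact this hn
        rw [Subgroup.mem_center_iff.mp hnc g, mul_assoc, mul_inv_cancel, mul_one]
        exact hn
      infer_instance
    have hTK : T ≤ K m' := by
      intro t ht
      rw [hT, Subgroup.mem_comap, Subgroup.mem_zpowers_iff] at ht
      obtain ⟨k, hk⟩ := ht
      rw [← map_zpow] at hk
      have h1 : (x ^ k)⁻¹ * t ∈ C' := QuotientGroup.eq.mp hk
      have h2 : t = x ^ k * ((x ^ k)⁻¹ * t) := by group
      rw [h2]
      exact mul_mem (zpow_mem (hm' (Or.inr rfl)) k)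
        (hm' (Or.inl (Subgroup.normalCore_le _ h1)))
    have hTc : IsCompact (T.topologicalClosure : Set G) := by
      apply (hKc m').of_isClosed_subset (Subgroup.isClosed_topologicalClosure _)
      exact Subgroup.topologicalClosure_minimal _ hTK (hKc m').isClosed
    have h3 := hall T.topologicalClosure (Subgroup.is_normal_topologicalClosure _) hTc
    exact hxW (hm (h3 (Subgroup.le_topologicalClosure _ hxT)))

/-- finite fibres argument. -/
theorem preimage_compact {X : Type*} (Z : Subgroup G) (hZ : IsCompact (Z : Set G)) (f : G → X)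
    (hf : ∀ g h, f g = f h → g⁻¹ * h ∈ Z) (A : Set X) (hA : A.Finite) :
    ∃ C : Set G, IsCompact C ∧ ∀ g, f g ∈ A → g ∈ C := by
  classical
  have : ∀ a : X, ∃ C : Set G, IsCompact C ∧ ∀ g, f g = a → g ∈ C := by
    intro a
    by_cases h : ∃ g, f g = a
    · obtain ⟨g0, hg0⟩ := h
      refine ⟨(fun z => g0 * z) '' (Z : Set G), hZ.image (by fun_prop), ?_⟩
      intro g hg
      exact ⟨g0⁻¹ * g, hf _ _ (hg0.trans hg.symm), by group⟩
    · exact ⟨∅, isCompact_empty, fun g hg => (h ⟨g, hg⟩).elim⟩
  choose C hC1 hC2 using this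
  refine ⟨⋃ a ∈ A, C a, hA.isCompact_biUnion (fun a _ => hC1 a), ?_⟩
  intro g hg
  exact Set.mem_biUnion hg (hC2 _ g rfl)

/-- a closed subgroup for which `G/Z` injects into a finite set is everything. -/
theorem Ctx.eq_top_of_finite (c : Ctx G) {X : Type*} (Z : Subgroup G) (hZ : IsClosed (Z : Set G))
    (f : G → X) (hf : ∀ g h, f g = f h → g⁻¹ * h ∈ Z) (hA : (Set.range f).Finite) : Z = ⊤ := by
  by_contra h
  obtain ⟨C, hC1, hC2⟩ := preimage_compact Z (c.cpt Z hZ h) f hf _ hA
  apply c.nc
  have : (Set.univ : Set G) = C := by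
    ext x
    simp only [Set.mem_univ, true_iff]
    exact hC2 x ⟨x, rfl⟩
  rw [this]; exact hC1

/-- finite sections are centralised -/
theorem Ctx.commutator_le_of_finite (c : Ctx G) (R S : Subgroup G) [R.Normal] [S.Normal]
    (hS : IsClosed (S : Set G))
    (hfin : ((fun x : G => (x : G ⧸ S)) '' (R : Set G)).Finite) :
    ⁅R, (⊤ : Subgroup G)⁆ ≤ S := by
  rw [Subgroup.commutator_le]
  intro x hx g _
  have : cenModOf S x = ⊤ := by
    apply c.eq_top_of_finite (cenModOf S x) (isClosed_cenModOf S hS x)
      (fun g : G => ((g * x * g⁻¹ : G) : G ⧸ S))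
    · intro g h hgh
      rw [mem_cenModOf]
      have h1 : (g * x * g⁻¹)⁻¹ * (h * x * h⁻¹) ∈ S := QuotientGroup.eq.mp hgh
      have h2 : ⁅x, g⁻¹ * h⁆ = x * (g⁻¹ * ((g * x * g⁻¹)⁻¹ * (h * x * h⁻¹))⁻¹ * g) * x⁻¹ := by
        simp [commutatorElement_def, mul_assoc]
      rw [h2]
      apply Subgroup.Normal.conj_mem inferInstance
      have := Subgroup.Normal.conj_mem (H := S) inferInstance _ (inv_mem h1) g⁻¹
      rwa [inv_inv] at this
    · apply hfin.subset
      rintro _ ⟨g, rfl⟩
      exact ⟨g * x * g⁻¹, Subgroup.Normal.conj_mem inferInstance _ hx g, rfl⟩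
  apply mem_cenModOf.mp
  rw [this]; trivial

omit [IsTopologicalGroup G] in
theorem finite_image_of_open [IsTopologicalGroup G] (R S : Subgroup G) (hR : IsCompact (R : Set G))
    (U : Set G) (hU : U ∈ 𝓝 (1 : G)) (hUS : ∀ x ∈ U, x ∈ R → x ∈ S) :
    ((fun x : G => (x : G ⧸ S)) '' (R : Set G)).Finite := by
  have hcs : CompactSpace R := isCompact_iff_compactSpace.mp hR
  have hopen : IsOpen ((S.subgroupOf R : Subgroup R) : Set R) := by
    apply Subgroup.isOpen_of_mem_nhds (g := 1)
    have : (Subtype.val : R → G) ⁻¹' U ∈ 𝓝 (1 : R) := by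
      apply continuous_subtype_val.continuousAt.preimage_mem_nhds
      exact hU
    filter_upwards [this] with x hx
    exact hUS x hx x.2
  have hfin : Finite (R ⧸ (S.subgroupOf R)) := Subgroup.quotient_finite_of_isOpen _ hopen
  have : ((fun x : G => (x : G ⧸ S)) '' (R : Set G)) ⊆
      Set.range (fun q : R ⧸ (S.subgroupOf R) => (((q.out : R) : G) : G ⧸ S)) := by
    rintro _ ⟨x, hx, rfl⟩
    refine ⟨((⟨x, hx⟩ : R) : R ⧸ (S.subgroupOf R)), ?_⟩
    simp only
    have h1 := QuotientGroup.out_eq' ((⟨x, hx⟩ : R) : R ⧸ (S.subgroupOf R))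
    have h2 := QuotientGroup.eq.mp h1
    exact QuotientGroup.eq.mpr h2
  exact (Set.finite_range _).subset this

end Pool.Agent.H80.LN
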