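import Pool.Agent.H80.LN.C2

set_option autoImplicit false

open Topology Set
open scoped Pointwise commutatorElement

namespace Pool.Agent.H80.LN

theorem finite_between {G : Type*} [Group G] (A R : Subgroup G)
    (hfin : ((fun x : G => (x : G ⧸ A)) '' (R : Set G)).Finite) :
    {S : Subgroup G | A ≤ S ∧ S ≤ R}.Finite := by
  apply Set.Finite.of_finite_image (f := fun S : Subgroup G =>
    ((fun x : G => (x : G ⧸ A)) '' (S : Set G)))
  · apply hfin.finite_subsets.subset
    rintro _ ⟨S, ⟨_, hS⟩, rfl⟩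
    exact Set.image_mono hS
  · have key : ∀ S T : Subgroup G, A ≤ T → ((fun x : G => (x : G ⧸ A)) '' (S : Set G)) =
        ((fun x : G => (x : G ⧸ A)) '' (T : Set G)) → S ≤ T := by
      intro S T hT h x hx
      have : (x : G ⧸ A) ∈ ((fun x : G => (x : G ⧸ A)) '' (T : Set G)) := by
        rw [← h]; exact ⟨x, hx, rfl⟩
      obtain ⟨t, ht, htx⟩ := this
      have h1 : t⁻¹ * x ∈ A := QuotientGroup.eq.mp htx
      have h2 : x = t * (t⁻¹ * x) := by group
      rw [h2]
      exact mul_mem ht (hT h1)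
    intro S hS T hT h
    exact le_antisymm (key S T hT.1 h) (key T S hS.1 h.symm)

variable {G : Type*} [Group G] [TopologicalSpace G] [IsTopologicalGroup G]

theorem isClosed_normalizer' (S : Subgroup G) (hS : IsClosed (S : Set G)) :
    IsClosed ((Subgroup.normalizer (S : Set G) : Subgroup G) : Set G) := by
  have : ((Subgroup.normalizer (S : Set G) : Subgroup G) : Set G) =
      (⋂ w : S, {g : G | g * (w : G) * g⁻¹ ∈ S}) ∩ (⋂ w : S, {g : G | g⁻¹ * (w : G) * g ∈ S}) := by
    ext g
    simp only [SetLike.mem_coe, Subgroup.mem_normalizer_iff, Set.mem_inter_iff, Set.mem_iInter,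
      Set.mem_ofPred_eq, Subtype.forall]
    constructor
    · intro h
      refine ⟨fun w hw => (h w).mp hw, fun w hw => ?_⟩
      rw [h]
      have : g * (g⁻¹ * w * g) * g⁻¹ = w := by group
      rwa [this]
    · rintro ⟨h1, h2⟩ w
      refine ⟨fun hw => h1 w hw, fun hw => ?_⟩
      have := h2 _ hw
      have h3 : g⁻¹ * (g * w * g⁻¹) * g = w := by group
      rwa [h3] at this
  rw [this]
  apply IsClosed.inter
  · exact isClosed_iInter (fun w => isClosed_setOf_mem hS (by fun_prop))
  · exact isClosed_iInter (fun w => isClosed_setOf_mem hS (by fun_prop))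

/-- the transporter lemma -/
theorem Ctx.transporter [T2Space G] (c : Ctx G) (R : Subgroup G) (hRn : R.Normal)
    (hRc : IsCompact (R : Set G)) (hR : R ≤ (⁅R, (⊤ : Subgroup G)⁆).topologicalClosure)
    (L L' : Subgroup G) (hL : IsOpen (L : Set G)) (hL' : IsOpen (L' : Set G)) (hRL : ¬ R ≤ L') :
    ∃ C : Set G, IsCompact C ∧ ∀ r : G, (∀ y ∈ R, y ∈ L → r⁻¹ * y * r ∈ L') → r ∈ C := by
  set S := R ⊓ L' with hS
  have hScl : IsClosed (S : Set G) := by
    rw [hS, Subgroup.coe_inf]
    exact hRc.isClosed.inter (Subgroup.isClosed_of_isOpen _ hL')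
  set Z := Subgroup.normalizer (S : Set G) with hZ
  have hZcl : IsClosed (Z : Set G) := isClosed_normalizer' S hScl
  have hZtop : Z ≠ ⊤ := by
    intro h
    have hSn : S.Normal := Subgroup.normalizer_eq_top_iff.mp h
    have hle := c.commutator_le_of_finite R S hScl
      (finite_image_of_open R S hRc (L' : Set G) (hL'.mem_nhds (one_mem _))
        (fun x hx hxR => ⟨hxR, hx⟩))
    apply hRL
    have h2 := hR.trans (Subgroup.topologicalClosure_minimal _ hle hScl)
    exact h2.trans inf_le_right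
  have hZc := c.cpt Z hZcl hZtop
  let f : G → Subgroup G := fun r => S.comap (MulAut.conj r⁻¹).toMonoidHom
  have hf : ∀ r y, y ∈ f r ↔ r⁻¹ * y * r ∈ S := by
    intro r y
    simp [f, Subgroup.mem_comap]
  obtain ⟨C, hC1, hC2⟩ := preimage_compact Z hZc f (by
    intro g h hgh
    rw [hZ, Subgroup.mem_normalizer_iff]
    intro w
    have h1 : w ∈ S ↔ h * w * h⁻¹ ∈ f h := by
      rw [hf]
      have : h⁻¹ * (h * w * h⁻¹) * h = w := by group
      rw [this]
    rw [h1, ← hgh, hf]
    have : g⁻¹ * (h * w * h⁻¹) * g = g⁻¹ * h * w * (g⁻¹ * h)⁻¹ := by group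
    rw [this]) {T : Subgroup G | R ⊓ L ≤ T ∧ T ≤ R} (by
      apply finite_between
      apply finite_image_of_open R (R ⊓ L) hRc (L : Set G) (hL.mem_nhds (one_mem _))
      exact fun x hx hxR => ⟨hxR, hx⟩)
  refine ⟨C, hC1, ?_⟩
  intro r hr
  apply hC2
  constructor
  · intro y hy
    rw [hf]
    refine ⟨?_, hr y hy.1 hy.2⟩
    have := Subgroup.Normal.conj_mem (H := R) inferInstance _ hy.1 r⁻¹
    rwa [inv_inv] at this
  · intro y hy
    rw [hf] at hy
    have := Subgroup.Normal.conj_mem (H := R) inferInstance _ hy.1 r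
    have h3 : r * (r⁻¹ * y * r) * r⁻¹ = y := by group
    rwa [h3] at this

/-- Step C3, the mixing lemma. -/
theorem Ctx.mix [T2Space G] (c : Ctx G) {V : Type*} [AddCommGroup V] [DistribMulAction G V]
    (hsm : ∀ v : V, IsOpen (MulAction.stabilizer G v : Set G))
    (hfix : ∀ v : V, (∀ g : G, g • v = v) → v = 0) {ι : Type*} [DecidableEq ι] :
    ∀ (k : ℕ) (U : Set V), U.Finite → ∃ C : Set G, IsCompact C ∧
      ∀ (s : Finset ι) (t : ι → G) (u : ι → V), s.card ≤ k →
        (∀ i ∈ s, ∀ j ∈ s, i ≠ j → (t i)⁻¹ * t j ∉ C) → (∀ i ∈ s, u i ∈ U) →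
        ∑ i ∈ s, t i • u i = 0 → ∀ i ∈ s, u i = 0 := by
  classical
  intro k
  induction k with
  | zero =>
    intro U _
    refine ⟨∅, isCompact_empty, ?_⟩
    intro s t u hs _ _ _ i hi
    have : s = ∅ := Finset.card_eq_zero.mp (Nat.le_zero.mp hs)
    rw [this] at hi
    simp at hi
  | succ k ih =>
    intro U hU
    obtain ⟨K, hKm, hKo, hKc, hKe⟩ := c.exh
    -- a compact open subgroup containing all stabilisers of nonzero elements of `U`
    have hstab : ∀ u : V, u ≠ 0 → IsCompact (MulAction.stabilizer G u : Set G) := by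
      intro u hu
      apply c.cpt _ (Subgroup.isClosed_of_isOpen _ (hsm u))
      intro h
      apply hu
      apply hfix
      intro g
      have : g ∈ MulAction.stabilizer G u := by rw [h]; trivial
      exact this
    have hUc : IsCompact (⋃ u ∈ U \ {0}, (MulAction.stabilizer G u : Set G)) := by
      apply (hU.diff).isCompact_biUnion
      intro u hu
      exact hstab u hu.2
    obtain ⟨m, hm⟩ := hKe _ hUc
    obtain ⟨R, hRn, hRc, hRR, hRW⟩ := c.step2 (K m) (hKc m)
    have hRu : ∀ u ∈ U, u ≠ 0 → ¬ R ≤ MulAction.stabilizer G u := by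
      intro u hu hu0 hle
      apply hRW
      intro x hx
      apply hm
      exact Set.mem_biUnion (show u ∈ U \ {0} from ⟨hu, hu0⟩) (hle hx)
    set U' : Set V := ⋃ u ∈ U, (fun y : G => y • u - u) '' (R : Set G) with hU'
    have hU'fin : U'.Finite := by
      apply hU.biUnion
      intro u _
      have h1 := finite_image_of_open R (MulAction.stabilizer G u) hRc
        (MulAction.stabilizer G u : Set G) ((hsm u).mem_nhds (one_mem _)) (fun x hx _ => hx)
      have h2 : (fun y : G => y • u - u) '' (R : Set G) ⊆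
          (fun q : G ⧸ (MulAction.stabilizer G u) => q.out • u - u) ''
            ((fun x : G => (x : G ⧸ (MulAction.stabilizer G u))) '' (R : Set G)) := by
        rintro _ ⟨y, hy, rfl⟩
        refine ⟨_, ⟨y, hy, rfl⟩, ?_⟩
        have h3 := QuotientGroup.out_eq' (y : G ⧸ (MulAction.stabilizer G u))
        have h4 : _ ∈ MulAction.stabilizer G u := QuotientGroup.eq.mp h3
        rw [MulAction.mem_stabilizer_iff, mul_smul, inv_smul_eq_iff] at h4
        simp only
        rw [h4]
      exact (h1.image _).subset h2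
    obtain ⟨C1, hC1c, hC1⟩ := ih U' hU'fin
    have hT : ∀ p : V × V, ∃ C : Set G, IsCompact C ∧ (p.2 ∈ U → p.2 ≠ 0 → ∀ r : G,
        (∀ y ∈ R, y ∈ MulAction.stabilizer G p.1 → r⁻¹ * y * r ∈ MulAction.stabilizer G p.2) →
          r ∈ C) := by
      intro p
      by_cases hp : p.2 ∈ U ∧ p.2 ≠ 0
      · obtain ⟨C, h1, h2⟩ := c.transporter R hRn hRc hRR (MulAction.stabilizer G p.1)
          (MulAction.stabilizer G p.2) (hsm _) (hsm _) (hRu _ hp.1 hp.2)
        exact ⟨C, h1, fun _ _ => h2⟩
      · exact ⟨∅, isCompact_empty, fun h1 h2 => (hp ⟨h1, h2⟩).elim⟩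
    choose T hT1 hT2 using hT
    refine ⟨C1 ∪ ⋃ p ∈ U ×ˢ U, T p, hC1c.union ((hU.prod hU).isCompact_biUnion
      (fun p _ => hT1 p)), ?_⟩
    intro s t u hs hC hu hsum
    by_contra hcon
    push Not at hcon
    obtain ⟨i0, hi0, hu0⟩ := hcon
    -- apply `y - 1`
    have key : ∀ y ∈ R, y ∈ MulAction.stabilizer G (u i0) → ∀ i ∈ s.erase i0,
        ((t i0)⁻¹ * t i)⁻¹ * y * ((t i0)⁻¹ * t i) ∈ MulAction.stabilizer G (u i) := by
      intro y hyR hy
      have h1 : ∑ i ∈ s.erase i0, t i •
          ((((t i0)⁻¹ * t i)⁻¹ * y * ((t i0)⁻¹ * t i)) • u i - u i) = 0 := by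
        have h2 : (t i0 * y * (t i0)⁻¹) • (∑ i ∈ s, t i • u i) - ∑ i ∈ s, t i • u i = 0 := by
          rw [hsum, smul_zero, sub_zero]
        rw [Finset.smul_sum, ← Finset.sum_sub_distrib,
          ← Finset.add_sum_erase s _ hi0] at h2
        have h3 : (t i0 * y * (t i0)⁻¹) • t i0 • u i0 - t i0 • u i0 = 0 := by
          rw [← mul_smul]
          have : t i0 * y * (t i0)⁻¹ * t i0 = t i0 * y := by group
          rw [this, mul_smul, MulAction.mem_stabilizer_iff.mp hy, sub_self]
        rw [h3, zero_add] at h2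
        rw [← h2]
        apply Finset.sum_congr rfl
        intro i _
        rw [smul_sub, ← mul_smul, ← mul_smul]
        congr 2
        group
      have h4 := hC1 (s.erase i0) t
        (fun i => (((t i0)⁻¹ * t i)⁻¹ * y * ((t i0)⁻¹ * t i)) • u i - u i)
        (by rw [Finset.card_erase_of_mem hi0]; omega)
        (fun i hi j hj hij h => hC i (Finset.mem_of_mem_erase hi) j (Finset.mem_of_mem_erase hj)
          hij (Or.inl h))
        (by
          intro i hi
          rw [hU']
          refine Set.mem_biUnion (hu i (Finset.mem_of_mem_erase hi)) ⟨_, ?_, rfl⟩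
          have := Subgroup.Normal.conj_mem (H := R) inferInstance _ hyR ((t i0)⁻¹ * t i)⁻¹
          rwa [inv_inv] at this)
        h1
      intro i hi
      rw [MulAction.mem_stabilizer_iff]
      exact sub_eq_zero.mp (h4 i hi)
    -- some other coefficient is nonzero
    have hex : ∃ i ∈ s.erase i0, u i ≠ 0 := by
      by_contra h
      push Not at h
      rw [← Finset.add_sum_erase s _ hi0] at hsum
      have h1 : ∑ i ∈ s.erase i0, t i • u i = 0 := by
        apply Finset.sum_eq_zero
        intro i hi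
        rw [h i hi, smul_zero]
      rw [h1, add_zero, smul_eq_zero_iff_eq] at hsum
      exact hu0 hsum
    obtain ⟨i, hi, hui⟩ := hex
    have hi' := Finset.mem_of_mem_erase hi
    have h5 := hT2 (u i0, u i) (hu i hi') hui ((t i0)⁻¹ * t i)
      (fun y hy1 hy2 => key y hy1 hy2 i hi)
    apply hC i0 hi0 i hi' (Finset.ne_of_mem_erase hi).symm
    right
    exact Set.mem_biUnion (show (u i0, u i) ∈ U ×ˢ U from ⟨hu i0 hi0, hu i hi'⟩) h5

end Pool.Agent.H80.LN
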