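import Pool.Agent.H80.LN.C4

set_option autoImplicit false

open Topology Set
open scoped Pointwise commutatorElement

namespace Pool.Agent.H80.LN

theorem pow_char_of_unipotent {p : ℕ} [Fact p.Prime] {A : Type*} [Ring A] [Algebra (ZMod p) A]
    (T : A) (e : ℕ) (h : (T - 1) ^ e = 0) : T ^ (p ^ e) = 1 := by
  have h1 : (Polynomial.X - 1 : Polynomial (ZMod p)) ^ (p ^ e) = Polynomial.X ^ (p ^ e) - 1 := by
    rw [sub_pow_char_pow, one_pow]
  have h2 := congrArg (Polynomial.aeval T) h1
  simp only [map_pow, map_sub, Polynomial.aeval_X, map_one] at h2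
  have h3 : (T - 1) ^ (p ^ e) = 0 :=
    pow_eq_zero_of_le (Nat.lt_pow_self (Fact.out : p.Prime).one_lt).le h
  rw [h3] at h2
  exact (sub_eq_zero.mp h2.symm)

variable {G : Type*} [Group G] [TopologicalSpace G] [IsTopologicalGroup G]

theorem exists_le_of_iUnion [T2Space G] (R : Subgroup G) (hR : IsCompact (R : Set G))
    (S : ℕ → Subgroup G) (hS : ∀ n, IsClosed (S n : Set G)) (hm : Monotone S)
    (hu : ∀ x ∈ R, ∃ n, x ∈ S n) : ∃ n, R ≤ S n := by
  have hcs : CompactSpace R := isCompact_iff_compactSpace.mp hR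
  obtain ⟨n, ⟨x, hx⟩⟩ := nonempty_interior_of_iUnion_of_closed
    (f := fun n => (((S n).subgroupOf R : Subgroup R) : Set R))
    (fun n => (hS n).preimage continuous_subtype_val) (by
      rw [Set.eq_univ_iff_forall]
      intro x
      obtain ⟨n, hn⟩ := hu x.1 x.2
      exact Set.mem_iUnion.mpr ⟨n, hn⟩)
  have hn : IsOpen (((S n).subgroupOf R : Subgroup R) : Set R) :=
    Subgroup.isOpen_of_mem_nhds _ (mem_interior_iff_mem_nhds.mp hx)
  have hno : ∀ k, IsOpen (((S (k + n)).subgroupOf R : Subgroup R) : Set R) := by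
    intro k
    apply Subgroup.isOpen_mono _ hn
    intro y hy
    exact hm (by omega : n ≤ k + n) hy
  obtain ⟨k, hk⟩ := isCompact_univ.elim_directed_cover
    (fun k => (((S (k + n)).subgroupOf R : Subgroup R) : Set R)) hno (by
      intro x _
      obtain ⟨k, hk⟩ := hu x.1 x.2
      exact Set.mem_iUnion.mpr ⟨k, hm (by omega : k ≤ k + n) hk⟩) (by
      apply Monotone.directed_le
      intro a b hab y hy
      exact hm (by omega : a + n ≤ b + n) hy)
  refine ⟨k + n, fun x hx => ?_⟩
  exact hk (Set.mem_univ (⟨x, hx⟩ : R))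

theorem engel {G : Type*} [Group G]
    (hN : ∀ s : Finset G, Group.IsNilpotent (Subgroup.closure (s : Set G))) (g x : G) :
    ∃ e : ℕ, (fun y : G => y⁻¹ * (g⁻¹ * y * g))^[e] x = 1 := by
  classical
  set S := Subgroup.closure (({x, g} : Finset G) : Set G) with hS
  obtain ⟨n, hn⟩ := (Subgroup.isNilpotent_iff_lowerCentralSeries S).mp (hN {x, g})
  have hx : x ∈ S := Subgroup.subset_closure (by simp)
  have hg : g ∈ S := Subgroup.subset_closure (by simp)
  have key : ∀ e, (fun y : G => y⁻¹ * (g⁻¹ * y * g))^[e] x ∈ S.lowerCentralSeries e := by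
    intro e
    induction e with
    | zero => simpa using hx
    | succ e ih =>
      rw [Function.iterate_succ', Function.comp, Subgroup.lowerCentralSeries_succ]
      have h1 := Subgroup.commutator_mem_commutator (inv_mem ih) (inv_mem hg)
      rw [commutatorElement_def, inv_inv, inv_inv] at h1
      have h2 : ∀ y : G, y⁻¹ * (g⁻¹ * y * g) = y⁻¹ * g⁻¹ * y * g := by
        intro y; group
      rw [h2]
      exact h1
  refine ⟨n, ?_⟩
  have := key n
  rw [hn] at this
  exact this

/-- Step C4, second half. -/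
theorem Ctx.torsion [T2Space G] (c : Ctx G) : ∃ p : ℕ, p.Prime ∧ ∃ D : Subgroup G, D.Normal ∧
    IsCompact (D : Set G) ∧ ∀ g : G, ∃ j : ℕ, g ^ (p ^ j) ∈ D := by
  obtain ⟨K, hKm, hKo, hKc, hKe⟩ := c.exh
  obtain ⟨R, hRn, hRc, hRR, p, hp, v0, hv0, -⟩ := c.exists_char (K 0) (hKo 0) (hKc 0)
  have hfact : Fact p.Prime := ⟨hp⟩
  let D : Subgroup G := ⨅ v : VS R p, MulAction.stabilizer G v
  have hD : ∀ g, g ∈ D ↔ ∀ v : VS R p, g • v = v := by
    intro g
    simp [D, Subgroup.mem_iInf, MulAction.mem_stabilizer_iff]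
  have hDcl : IsClosed (D : Set G) := by
    simp only [D, Subgroup.coe_iInf]
    exact isClosed_iInter (fun v => Subgroup.isClosed_of_isOpen _ (VS.isOpen_stabilizer hRc v))
  have hDn : D.Normal := by
    constructor
    intro n hn g
    rw [hD] at hn ⊢
    intro v
    rw [mul_smul, mul_smul, hn, ← mul_smul, mul_inv_cancel, one_smul]
  have hDtop : D ≠ ⊤ := by
    intro h
    apply hv0
    apply VS.fixed hRc.isClosed hRR
    intro g
    apply (hD g).mp
    rw [h]; trivial
  refine ⟨p, hp, D, hDn, c.cpt D hDcl hDtop, ?_⟩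
  intro g
  set T : Module.End (ZMod p) (VS R p) := DistribMulAction.toModuleEnd (ZMod p) (VS R p) g with hT
  have hTv : ∀ v, T v = g • v := fun v => rfl
  set φ : G → G := fun y : G => y⁻¹ * (g⁻¹ * y * g) with hφ
  have hφR : ∀ y ∈ R, φ y ∈ R := by
    intro y hy
    have h1 := hRn.conj_mem _ hy g⁻¹
    rw [inv_inv] at h1
    exact mul_mem (inv_mem hy) h1
  have hT1 : ∀ (v : VS R p) (y : G), y ∈ R → ((T - 1) v).1 y = v.1 (φ y) := by
    intro v y hy
    have h1 := hRn.conj_mem _ hy g⁻¹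
    rw [inv_inv] at h1
    rw [hφ]
    simp only
    rw [VS.mul v (inv_mem hy) h1, VS.inv v hy]
    have h2 : ((T - 1) v).1 y = (g • v).1 y - v.1 y := rfl
    rw [h2, VS.smul_apply]
    ring
  have hTe : ∀ (e : ℕ) (v : VS R p) (y : G), y ∈ R → (((T - 1) ^ e) v).1 y = v.1 (φ^[e] y) := by
    intro e
    induction e with
    | zero => intro v y _; rfl
    | succ e ih =>
      intro v y hy
      rw [pow_succ', Module.End.mul_apply, hT1 _ y hy, ih v _ (hφR y hy), Function.iterate_succ,
        Function.comp]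
  let S : ℕ → Subgroup G := fun e => ⨅ v : VS R p, VS.ker (((T - 1) ^ e) v)
  have hS : ∀ e x, x ∈ S e ↔ ∀ v : VS R p, x ∈ VS.ker (((T - 1) ^ e) v) := by
    intro e x
    simp [S, Subgroup.mem_iInf]
  obtain ⟨e, he⟩ := exists_le_of_iUnion R hRc S (by
      intro e
      simp only [S, Subgroup.coe_iInf]
      exact isClosed_iInter (fun v => VS.isClosed_ker _ hRc.isClosed)) (by
      apply monotone_nat_of_le_succ
      intro e x hx
      rw [hS] at hx ⊢
      intro v
      rw [pow_succ, Module.End.mul_apply]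
      exact hx _) (by
      intro x hx
      obtain ⟨e, he⟩ := engel c.nilp g x
      refine ⟨e, ?_⟩
      rw [hS]
      intro v
      rw [VS.mem_ker]
      refine ⟨hx, ?_⟩
      rw [hTe e v x hx, he, VS.one])
  have hzero : (T - 1) ^ e = 0 := by
    apply LinearMap.ext
    intro v
    apply Subtype.ext
    funext x
    by_cases hx : x ∈ R
    · exact ((hS e x).mp (he hx) v).2
    · rw [VS.support _ hx]
      rfl
  have hpow := pow_char_of_unipotent (p := p) T e hzero
  refine ⟨e, ?_⟩
  rw [hD]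
  intro v
  have h1 : T ^ (p ^ e) = DistribMulAction.toModuleEnd (ZMod p) (VS R p) (g ^ (p ^ e)) := by
    rw [map_pow]
  rw [h1] at hpow
  have h2 := congrArg (fun F : Module.End (ZMod p) (VS R p) => F v) hpow
  exact h2

/-- no compact open normal subgroup -/
theorem Ctx.no_open_normal [T2Space G] (c : Ctx G) (D : Subgroup G) (hDn : D.Normal)
    (hDc : IsCompact (D : Set G)) (hDo : IsOpen (D : Set G)) : False := by
  obtain ⟨R, hRn, hRc, hRR, hRW⟩ := c.step2 D hDc
  have hle := c.commutator_le_of_finite R D hDc.isClosed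
    (finite_image_of_open R D hRc (D : Set G) (hDo.mem_nhds (one_mem _)) (fun x hx _ => hx))
  exact hRW (hRR.trans (Subgroup.topologicalClosure_minimal _ hle hDc.isClosed))

/-- Step C5: the minimal exponent. -/
theorem Ctx.minexp [T2Space G] [LocallyCompactSpace G] (c : Ctx G) :
    ∃ p : ℕ, p.Prime ∧ ∃ j : ℕ, ∃ D : Subgroup G, D.Normal ∧ IsCompact (D : Set G) ∧
      ∃ O : Set G, IsOpen O ∧ (∀ g ∈ O, g ^ (p ^ (j + 1)) ∈ D) ∧
        ∃ g ∈ O, ∀ E : Subgroup G, E.Normal → IsCompact (E : Set G) → g ^ (p ^ j) ∉ E := by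
  classical
  obtain ⟨K, hKm, hKo, hKc, hKe⟩ := c.exh
  obtain ⟨p, hp, D0, hD0n, hD0c, hD0⟩ := c.torsion
  let P : ℕ → Prop := fun j => ∃ D : Subgroup G, D.Normal ∧ IsCompact (D : Set G) ∧
      ∃ O : Set G, IsOpen O ∧ O.Nonempty ∧ (∀ g ∈ O, g ^ (p ^ j) ∈ D)
  have hP : ∃ j, P j := by
    obtain ⟨j, hj⟩ := nonempty_interior_of_iUnion_of_closed
      (f := fun j : ℕ => {g : G | g ^ (p ^ j) ∈ D0})
      (fun j => isClosed_setOf_mem (f := fun g => g ^ (p ^ j)) hD0c.isClosed (by fun_prop)) (by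
        rw [Set.eq_univ_iff_forall]
        intro x
        obtain ⟨n, hn⟩ := hD0 x
        exact Set.mem_iUnion.mpr ⟨n, hn⟩)
    refine ⟨j, D0, hD0n, hD0c, interior {g : G | g ^ (p ^ j) ∈ D0}, isOpen_interior, hj,
      fun g hg => ?_⟩
    have := interior_subset hg
    exact this
  obtain ⟨D, hDn, hDc, O, hOo, hOn, hO⟩ := Nat.find_spec hP
  have hmin : ∀ i < Nat.find hP, ¬ P i := fun i hi => Nat.find_min hP hi
  rcases hj : Nat.find hP with _ | j
  · exfalso
    rw [hj] at hO
    simp only [pow_zero, pow_one] at hO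
    obtain ⟨x, hx⟩ := hOn
    apply c.no_open_normal D hDn hDc
    apply Subgroup.isOpen_of_mem_nhds D (g := x)
    exact Filter.mem_of_superset (hOo.mem_nhds hx) hO
  · rw [hj] at hO
    refine ⟨p, hp, j, D, hDn, hDc, O, hOo, hO, ?_⟩
    by_contra hcon
    push Not at hcon
    have hPj := hmin j (by omega)
    apply hPj
    have hdense := dense_iUnion_interior_of_closed
      (f := fun n : ℕ => {g : G | g ^ (p ^ j) ∈ (K n).normalCore} ∪ Oᶜ)
      (fun n => (isClosed_setOf_mem (f := fun g => g ^ (p ^ j))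
        (isClosed_normalCore _ (hKc n).isClosed) (by fun_prop)).union hOo.isClosed_compl) (by
        rw [Set.eq_univ_iff_forall]
        intro x
        by_cases hx : x ∈ O
        · obtain ⟨E, hEn, hEc, hE⟩ := hcon x hx
          obtain ⟨n, hn⟩ := hKe _ hEc
          refine Set.mem_iUnion.mpr ⟨n, Or.inl ?_⟩
          exact Subgroup.normal_le_normalCore.mpr hn hE
        · exact Set.mem_iUnion.mpr ⟨0, Or.inr hx⟩)
    obtain ⟨y, hyO, hy⟩ := hdense.inter_open_nonempty O hOo hOn
    obtain ⟨n, hn⟩ := Set.mem_iUnion.mp hy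
    refine ⟨(K n).normalCore, inferInstance, ?_, O ∩ interior _, hOo.inter isOpen_interior,
      ⟨y, hyO, hn⟩, ?_⟩
    · exact (hKc n).of_isClosed_subset (isClosed_normalCore _ (hKc n).isClosed)
        (Subgroup.normalCore_le _)
    · intro g hg
      rcases interior_subset hg.2 with h | h
      · exact h
      · exact (h hg.1).elim

end Pool.Agent.H80.LN
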