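import Pool.Agent.H80.LN.C6

set_option autoImplicit false

namespace Pool.Agent.H80.LN

theorem main (G : Type*) [Group G] [TopologicalSpace G] [IsTopologicalGroup G]
    [LocallyCompactSpace G] [T2Space G]
    (hN : ∀ s : Finset G, Group.IsNilpotent (Subgroup.closure (s : Set G)))
    (hC : ∀ H : Subgroup G, IsClosed (H : Set G) → H ≠ ⊤ → IsCompact (H : Set G))
    (hnc : ¬ CompactSpace G) : ∀ a b : G, a * b = b * a := by
  have hnc' : ¬ IsCompact (Set.univ : Set G) := fun h => hnc ⟨h⟩
  by_cases hM : (commutator G).topologicalClosure = ⊤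
  · exact (Ctx.false ⟨hN, hC, hnc', exists_exhaustion hN hC hnc, hM⟩).elim
  · exact comm_of_not_perfect hC hnc' (exists_compact_open hN hC) hM

end Pool.Agent.H80.LN
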